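import Pool.Agent.H435R3.HBK.Step

/-!
# Stepanov's method for the union of several sets `u ^ t = α j`, `(u - 1) ^ t = β j`

The method of Heath-Brown and Konyagin, for several pairs of cosets. The proofs follow the starting file
`Pool.Agent.H435R3.HBK.Step`, which has one pair.
-/

set_option autoImplicit false

namespace Pool.Agent.V8H35.HB

open Polynomial Finset
open Pool.Agent.H435R3.HBK (PP PP_zero PP_succ PP_deg PP_main nonvan Psi)

variable {p : ℕ} [Fact p.Prime]

/-- linear algebra -/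
theorem exists_gS (s A B D : ℕ) (hD : s * (D * (A + D)) < B * (B * A))
    (w : ℕ → ℕ → ℕ → ZMod p) (Q : ℕ → ℕ → ℕ → (ZMod p)[X] →ₗ[ZMod p] (ZMod p)[X])
    (hQ : ∀ b c k h, (Q b c k h).natDegree ≤ h.natDegree + k) :
    ∃ g : ℕ → ℕ → (ZMod p)[X], (∀ b c, (g b c).degree < A) ∧
      (∃ b, b < B ∧ ∃ c, c < B ∧ g b c ≠ 0) ∧
      ∀ j < s, ∀ k < D, ∑ b ∈ range B, ∑ c ∈ range B, C (w j b c) * Q b c k (g b c) = 0 := by
  classical
  set poly : (Fin A → ZMod p) →ₗ[ZMod p] (ZMod p)[X] :=
    (degreeLT (ZMod p) A).subtype ∘ₗ (degreeLTEquiv (ZMod p) A).symm.toLinearMap with hpoly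
  have hpdeg : ∀ v, (poly v).degree < A := fun v =>
    mem_degreeLT.1 ((degreeLTEquiv (ZMod p) A).symm v).2
  have hpinj : ∀ v, poly v = 0 → v = 0 := by
    intro v hv
    have h1 : (degreeLTEquiv (ZMod p) A).symm v = 0 := Subtype.ext hv
    exact (LinearEquiv.map_eq_zero_iff _).1 h1
  set L : (Fin B → Fin B → Fin A → ZMod p) →ₗ[ZMod p] (Fin s → Fin D → Fin (A + D) → ZMod p) :=
    LinearMap.pi fun j => LinearMap.pi fun k => LinearMap.pi fun i => ∑ b : Fin B, ∑ c : Fin B,
      w j b c • (lcoeff (ZMod p) (i : ℕ) ∘ₗ Q b c k ∘ₗ poly ∘ₗ LinearMap.proj c ∘ₗ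
        LinearMap.proj b) with hL
  have hrank : Module.finrank (ZMod p) (Fin s → Fin D → Fin (A + D) → ZMod p) <
      Module.finrank (ZMod p) (Fin B → Fin B → Fin A → ZMod p) := by
    simp only [Module.finrank_pi_fintype, Module.finrank_self, sum_const, card_univ,
      Fintype.card_fin, smul_eq_mul, mul_one]
    exact hD
  have hker := LinearMap.ker_ne_bot_of_finrank_lt (f := L) hrank
  obtain ⟨v, hv, hv0⟩ := (Submodule.ne_bot_iff _).1 hker
  rw [LinearMap.mem_ker] at hv
  set g : ℕ → ℕ → (ZMod p)[X] := fun b c =>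
    if hb : b < B then if hc : c < B then poly (v ⟨b, hb⟩ ⟨c, hc⟩) else 0 else 0 with hg
  have hg1 : ∀ (b c : Fin B), g b c = poly (v b c) := by
    intro b c
    rw [hg]
    simp only [dif_pos b.2, dif_pos c.2]
  have hgdeg : ∀ b c, (g b c).degree < A := by
    intro b c
    by_cases hb : b < B
    · by_cases hc : c < B
      · rw [hg1 ⟨b, hb⟩ ⟨c, hc⟩]
        exact hpdeg _
      · rw [hg]
        simp only [dif_pos hb, dif_neg hc, degree_zero]
        exact WithBot.bot_lt_coe _
    · rw [hg]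
      simp only [dif_neg hb, degree_zero]
      exact WithBot.bot_lt_coe _
  refine ⟨g, hgdeg, ?_, ?_⟩
  · by_contra hcon
    push Not at hcon
    apply hv0
    funext b c
    refine hpinj _ ?_
    rw [← hg1]
    exact hcon b b.2 c c.2
  · intro j hj k hk
    ext i
    rw [coeff_zero, finsetSum_coeff, Finset.sum_range]
    have e1 : ∀ b : Fin B, (∑ c ∈ range B, C (w j b c) * Q b c k (g b c)).coeff i =
        ∑ c : Fin B, w j b c * (Q b c k (poly (v b c))).coeff i := by
      intro b
      rw [finsetSum_coeff, Finset.sum_range]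
      refine sum_congr rfl fun c _ => ?_
      rw [coeff_C_mul, hg1]
    rw [sum_congr rfl fun b _ => e1 b]
    by_cases hi : i < A + D
    · have h1 := congrFun (congrFun (congrFun hv ⟨j, hj⟩) ⟨k, hk⟩) ⟨i, hi⟩
      rw [hL] at h1
      simpa using h1
    · refine sum_eq_zero fun b _ => sum_eq_zero fun c _ => ?_
      rw [coeff_eq_zero_of_natDegree_lt, mul_zero]
      refine (hQ _ _ _ _).trans_lt ?_
      have h2 : (poly (v b c)).natDegree ≤ A := natDegree_le_of_degree_le (hpdeg _).le
      omega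

theorem stepanovS (s t A B D : ℕ) (hA : 1 ≤ A) (hAt : A ≤ t) (hAB : A * B ≤ t)
    (hp : A + t * (B - 1) < p) (hD : s * (D * (A + D)) < B * (B * A)) (hDp : D ≤ p)
    (α β : ℕ → ZMod p) (hα : ∀ j, α j ≠ 0) (hβ : ∀ j, β j ≠ 0) (U : Finset (ZMod p))
    (hU : ∀ u ∈ U, ∃ j < s, u ^ t = α j ∧ (u - 1) ^ t = β j) : U.card * D ≤ A + 2 * (t * (B - 1)) := by
  classical
  have ht : t ≠ 0 := by omega
  obtain ⟨g, hgdeg, ⟨b₀, hb₀, c₀, hc₀, hg0⟩, hgR⟩ := exists_gS (p := p) s A B D hD
    (fun j b c => α j ^ b * β j ^ c) (fun b c k => PP (t * b) (t * c) k)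
    (fun b c k h => PP_deg _ _ _ _)
  have hΨ : Psi t B g ≠ 0 := by
    intro h0
    exact hg0 (nonvan t A B hA hAt hAB hp g hgdeg h0 b₀ hb₀ c₀ hc₀)
  have hdvd : ∀ u ∈ U, (X - C u) ^ D ∣ Psi t B g := by
    intro u hu
    obtain ⟨j, hj, hu1, hu2⟩ := hU u hu
    have hu0 : u ≠ 0 := by
      rintro rfl
      rw [zero_pow ht] at hu1
      exact hα j hu1.symm
    have hu0' : u - 1 ≠ 0 := by
      intro h0
      rw [h0, zero_pow ht] at hu2
      exact hβ j hu2.symm
    have hroot : ∀ k < D, (derivative^[k] (Psi t B g)).IsRoot u := by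
      intro k hk
      have h1 : (X * (X - 1)) ^ k * derivative^[k] (Psi t B g) =
          ∑ b ∈ range B, ∑ c ∈ range B,
            X ^ (t * b) * (X - 1) ^ (t * c) * PP (t * b) (t * c) k (g b c) := by
        unfold Psi
        rw [iterate_derivative_sum, mul_sum]
        refine sum_congr rfl fun b _ => ?_
        rw [iterate_derivative_sum, mul_sum]
        exact sum_congr rfl fun c _ => PP_main _ _ _ _
      have h2 := congrArg (eval u) h1
      rw [eval_mul, eval_finsetSum] at h2
      have h3 : ∑ b ∈ range B, eval u (∑ c ∈ range B,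
            X ^ (t * b) * (X - 1) ^ (t * c) * PP (t * b) (t * c) k (g b c)) =
          eval u (∑ b ∈ range B, ∑ c ∈ range B,
            C (α j ^ b * β j ^ c) * PP (t * b) (t * c) k (g b c)) := by
        rw [eval_finsetSum]
        refine sum_congr rfl fun b _ => ?_
        rw [eval_finsetSum, eval_finsetSum]
        refine sum_congr rfl fun c _ => ?_
        rw [eval_mul, eval_mul, eval_mul, eval_pow, eval_pow, eval_X, eval_sub, eval_X, eval_one,
          eval_C, pow_mul, pow_mul, hu1, hu2]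
      rw [h3, hgR j hj k hk, eval_zero] at h2
      rcases mul_eq_zero.1 h2 with h4 | h4
      · exfalso
        rw [eval_pow, eval_mul, eval_X, eval_sub, eval_X, eval_one] at h4
        exact pow_ne_zero k (mul_ne_zero hu0 hu0') h4
      · exact h4
    rcases Nat.eq_zero_or_pos D with h0 | h0
    · rw [h0, pow_zero]
      exact one_dvd _
    · have h1 : D - 1 < (Psi t B g).rootMultiplicity u := by
        refine lt_rootMultiplicity_of_isRoot_iterate_derivative_of_mem_nonZeroDivisors' hΨ
          (fun m hm => hroot m (by omega)) (fun m hm hm0 => ?_)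
        rw [mem_nonZeroDivisors_iff_ne_zero, ne_eq, ZMod.natCast_eq_zero_iff]
        intro h2
        have := Nat.le_of_dvd (by omega) h2
        omega
      exact (pow_dvd_pow _ (by omega)).trans (pow_rootMultiplicity_dvd _ _)
  have hprod : (∏ u ∈ U, (X - C u) ^ D) ∣ Psi t B g := by
    refine Finset.prod_dvd_of_coprime (fun a _ b _ hab => ?_) hdvd
    refine IsCoprime.pow ?_
    exact isCoprime_X_sub_C_of_isUnit_sub (sub_ne_zero.2 hab).isUnit
  have h1 := natDegree_le_of_dvd hprod hΨ
  rw [natDegree_prod_of_monic _ _ fun u _ => (monic_X_sub_C u).pow D] at h1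
  have h2 : ∑ u ∈ U, ((X - C u) ^ D).natDegree = U.card * D := by
    rw [sum_congr rfl (fun u _ => by rw [natDegree_pow, natDegree_X_sub_C, mul_one]), sum_const,
      smul_eq_mul]
  rw [h2] at h1
  refine h1.trans ?_
  unfold Psi
  refine natDegree_sum_le_of_forall_le _ _ fun b hb => ?_
  refine natDegree_sum_le_of_forall_le _ _ fun c hc => ?_
  rw [mem_range] at hb hc
  have hX1 : (X - 1 : (ZMod p)[X]).natDegree ≤ 1 := by
    have : (X - 1 : (ZMod p)[X]) = X - C 1 := by simp
    rw [this]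
    exact natDegree_X_sub_C_le 1
  have e1 : (X ^ (t * b) : (ZMod p)[X]).natDegree ≤ t * (B - 1) := by
    rw [natDegree_X_pow]
    exact Nat.mul_le_mul_left t (by omega)
  have e2 : ((X - 1) ^ (t * c) : (ZMod p)[X]).natDegree ≤ t * (B - 1) := by
    refine natDegree_pow_le.trans ?_
    calc t * c * (X - 1 : (ZMod p)[X]).natDegree ≤ t * c * 1 := Nat.mul_le_mul_left _ hX1
      _ ≤ t * (B - 1) := by rw [mul_one]; exact Nat.mul_le_mul_left t (by omega)
  have e3 : (g b c).natDegree ≤ A := natDegree_le_of_degree_le (hgdeg b c).le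
  have e4 := natDegree_mul_le (p := (X ^ (t * b) : (ZMod p)[X])) (q := (X - 1) ^ (t * c) * g b c)
  have e5 := natDegree_mul_le (p := ((X - 1) ^ (t * c) : (ZMod p)[X])) (q := g b c)
  omega


end Pool.Agent.V8H35.HB
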