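import Pool.Agent.V8H35.HB.E10

/-!
# Large values in subgroups of the characters: the bound for the error terms
-/

set_option autoImplicit false

namespace Pool.Agent.V8H35.HB

open Finset Filter Topology
open Pool.Agent.R311.RES

/-- the facts on `x = log q` -/
structure FG (β c ν T0 : ℝ) (x : ℝ) : Prop where
  hx : 1 ≤ x
  g1 : 512 ≤ Real.exp (((5 * β + 5) / 8 - ν - 1 / 2) * x)
  g2 : 4097 < Real.exp (3 / 10 * x)
  g3 : 1 / c ≤ Real.exp ((3 / 5 - (1 - β)) * x)
  g4 : 16387 * (1 / c) ^ (3 / 2 : ℝ) ≤ Real.exp (4 * ν * x)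
  g5 : T0 ≤ Real.exp (ν * x)
  g6 : 2 * (11 + ‖riemannZeta (1 / 2)‖) * (1 / c) ≤ Real.exp (7 / 2 * ν * x)
  g7 : 32 * (1 + x) ≤ Real.exp (3 / 2 * ν * x)

lemma ev_exp' {c : ℝ} (hc : 0 < c) (a : ℝ) : ∀ᶠ x : ℝ in atTop, a ≤ Real.exp (c * x) :=
  (Real.tendsto_exp_atTop.comp (tendsto_id.const_mul_atTop hc)).eventually_ge_atTop a

theorem ev_FG {β c ν : ℝ} (T0 : ℝ) (hβ : 5 / 11 < β) (hν : 0 < ν) (hν1 : ν ≤ 1 / 10) :
    ∀ᶠ x : ℝ in atTop, FG β c ν T0 x := by
  have h1 := eventually_ge_atTop (1 : ℝ)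
  have h2 := ev_exp' (c := (5 * β + 5) / 8 - ν - 1 / 2) (by linarith) 512
  have h3 := ev_exp' (c := 3 / 10) (by norm_num) 4098
  have h4 := ev_exp' (c := 3 / 5 - (1 - β)) (by linarith) (1 / c)
  have h5 := ev_exp' (c := 4 * ν) (by positivity) (16387 * (1 / c) ^ (3 / 2 : ℝ))
  have h6 := ev_exp' (c := ν) hν T0
  have h7 := ev_exp' (c := 7 / 2 * ν) (by positivity) (2 * (11 + ‖riemannZeta (1 / 2)‖) * (1 / c))
  have h8 := eventually_ge_atTop (512 / (9 * ν ^ 2))
  filter_upwards [h1, h2, h3, h4, h5, h6, h7, h8] with x h1 h2 h3 h4 h5 h6 h7 h8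
  refine ⟨h1, h2, by linarith, h4, h5, h6, h7, ?_⟩
  have h9 := Real.quadratic_le_exp_of_nonneg (show 0 ≤ 3 / 2 * ν * x by positivity)
  rw [div_le_iff₀ (by positivity)] at h8
  have h10 : 32 * (1 + x) ≤ (3 / 2 * ν * x) ^ 2 / 2 := by
    have h11 : 512 * x ≤ x * (9 * ν ^ 2) * x := mul_le_mul_of_nonneg_right h8 (by linarith)
    have e : (3 / 2 * ν * x) ^ 2 / 2 = x * (9 * ν ^ 2) * x / 8 := by ring
    rw [e]
    linarith
  have h11 : 0 ≤ 3 / 2 * ν * x := by positivity
  linarith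

open scoped Classical in
/-- the bound for the exponential sums -/
lemma SS_sup {q : ℕ} [Fact q.Prime] (K : Subgroup (ZMod q)ˣ) (χ : DirichletCharacter ℂ q)
    {β c ν x : ℝ} (F : FG β c ν 20000 x) (hx : x = Real.log q) (hc : 0 < c)
    (hβ : 5 / 11 < β) (hβ1 : β ≤ 3 / 5)
    (hK : (Fintype.card K : ℝ) ≤ Real.exp ((1 - β) * x) * (1 / c)) (b : ZMod q) (hb : b ≠ 0) :
    ‖SS K χ b‖ ≤ Real.exp ((5 / 8 - 3 / 8 * β + ν) * x) := by
  obtain ⟨hx1, g1, g2, g3, g4, g5, g6, g7⟩ := F
  have hq0 : (0 : ℝ) < q := by exact_mod_cast (Nat.Prime.pos Fact.out : 0 < q)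
  have hqx : (q : ℝ) = Real.exp x := by rw [hx, Real.exp_log hq0]
  have hx0 : 0 < x := by linarith
  set t : ℕ := Fintype.card K with ht
  have ht1 : 1 ≤ t := by rw [ht]; exact Fintype.card_pos
  have ht0 : (1 : ℝ) ≤ t := by exact_mod_cast ht1
  rcases lt_or_ge t 20000 with hsm | hlg
  · have h1 : ‖SS K χ b‖ ≤ t := by
      unfold SS
      refine (norm_sum_le _ _).trans ?_
      have h2 : ∀ k ∈ (univ : Finset K), ‖χ ((k : (ZMod q)ˣ) : ZMod q) *
          ZMod.stdAddChar (N := q) (b * ((k : (ZMod q)ˣ) : ZMod q))‖ ≤ 1 := by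
        intro k _
        rw [norm_mul]
        exact mul_le_one₀ (DirichletCharacter.norm_le_one _ _) (norm_nonneg _)
          (AddChar.norm_apply _ _).le
      refine (Finset.sum_le_card_nsmul _ _ _ h2).trans ?_
      rw [nsmul_eq_mul, mul_one, card_univ]
    have h2 : (t : ℝ) ≤ 20000 := by exact_mod_cast hsm.le
    refine h1.trans (h2.trans (g5.trans ?_))
    rw [Real.exp_le_exp]
    apply mul_le_mul_of_nonneg_right _ hx0.le
    linarith
  · have ht2 : (20000 : ℝ) ≤ t := by exact_mod_cast hlg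
    have hs : 141 ≤ Real.sqrt t := by
      apply Real.le_sqrt_of_sq_le
      norm_num
      linarith
    have hss : Real.sqrt t * Real.sqrt t = t := Real.mul_self_sqrt (by linarith)
    have hs4 : 4096 * Real.sqrt t + 1 ≤ 4097 * Real.sqrt t := by linarith
    have h3 : 512 * (4096 * Real.sqrt t + 1) ≤ (t : ℝ) ^ 2 := by
      have h5 : (20000 * 141) * Real.sqrt t ≤ t * Real.sqrt t * Real.sqrt t := by
        apply mul_le_mul_of_nonneg_right _ (by linarith)
        nlinarith
      have h6 : (t : ℝ) * Real.sqrt t * Real.sqrt t = (t : ℝ) ^ 2 := by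
        rw [mul_assoc, hss]; ring
      rw [h6] at h5
      linarith
    have htq : (t : ℝ) ≤ Real.exp (3 / 5 * x) := by
      refine hK.trans ?_
      calc Real.exp ((1 - β) * x) * (1 / c) ≤ Real.exp ((1 - β) * x) * Real.exp ((3 / 5 - (1 - β)) * x) :=
            mul_le_mul_of_nonneg_left g3 (Real.exp_pos _).le
        _ = _ := by rw [← Real.exp_add]; congr 1; ring
    have h4 : (4096 * Real.sqrt t + 1) * (t : ℝ) ^ 4 < (q : ℝ) ^ 3 := by
      have h5 : Real.sqrt t ≤ Real.exp (3 / 10 * x) := by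
        rw [Real.sqrt_le_left (Real.exp_pos _).le]
        refine htq.trans (le_of_eq ?_)
        rw [← Real.exp_nat_mul]
        congr 1
        push_cast
        ring
      have h6 : (t : ℝ) ^ 4 ≤ Real.exp (12 / 5 * x) := by
        refine (pow_le_pow_left₀ (by linarith) htq 4).trans (le_of_eq ?_)
        rw [← Real.exp_nat_mul]
        congr 1
        push_cast
        ring
      calc (4096 * Real.sqrt t + 1) * (t : ℝ) ^ 4 ≤ (4097 * Real.exp (3 / 10 * x)) * Real.exp (12 / 5 * x) := by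
            apply mul_le_mul _ h6 (by positivity) (by positivity)
            linarith
        _ < (Real.exp (3 / 10 * x) * Real.exp (3 / 10 * x)) * Real.exp (12 / 5 * x) := by
            apply mul_lt_mul_of_pos_right _ (Real.exp_pos _)
            exact mul_lt_mul_of_pos_right g2 (Real.exp_pos _)
        _ = (q : ℝ) ^ 3 := by
            rw [hqx, ← Real.exp_add, ← Real.exp_add, ← Real.exp_nat_mul]
            congr 1
            push_cast
            ring
    have hmain := SS_le K χ hb ht h3 h4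
    have h5 : (t : ℝ) * Real.sqrt t ≤ Real.exp (3 / 2 * (1 - β) * x) * (1 / c) ^ (3 / 2 : ℝ) := by
      have e1 : (t : ℝ) * Real.sqrt t = (t : ℝ) ^ (3 / 2 : ℝ) := by
        rw [Real.sqrt_eq_rpow]
        nth_rewrite 1 [← Real.rpow_one (t : ℝ)]
        rw [← Real.rpow_add (by linarith)]
        norm_num
      rw [e1]
      refine (Real.rpow_le_rpow (by linarith) hK (by norm_num)).trans (le_of_eq ?_)
      rw [Real.mul_rpow (Real.exp_pos _).le (by positivity), ← Real.exp_mul]
      congr 2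
      ring
    have h6 : ‖SS K χ b‖ ^ 4 ≤ (Real.exp ((5 / 8 - 3 / 8 * β + ν) * x)) ^ 4 := by
      calc ‖SS K χ b‖ ^ 4 ≤ 16387 * (q * (t * Real.sqrt t)) := hmain
        _ ≤ 16387 * (q * (Real.exp (3 / 2 * (1 - β) * x) * (1 / c) ^ (3 / 2 : ℝ))) := by
            apply mul_le_mul_of_nonneg_left _ (by norm_num)
            exact mul_le_mul_of_nonneg_left h5 hq0.le
        _ = (q * Real.exp (3 / 2 * (1 - β) * x)) * (16387 * (1 / c) ^ (3 / 2 : ℝ)) := by ring
        _ ≤ (q * Real.exp (3 / 2 * (1 - β) * x)) * Real.exp (4 * ν * x) :=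
            mul_le_mul_of_nonneg_left g4 (by positivity)
        _ = _ := by
            rw [hqx, ← Real.exp_add, ← Real.exp_add, ← Real.exp_nat_mul]
            congr 1
            push_cast
            ring
    exact le_of_pow_le_pow_left₀ (by norm_num) (Real.exp_pos _).le h6

/-- the bound for the error -/
lemma err_le {q : ℕ} [Fact q.Prime] {β c ν x κ S : ℝ} {Y : ℕ} (F : FG β c ν 20000 x)
    (hx : x = Real.log q) (hc : 0 < c) (hβ : 5 / 11 < β) (hβ1 : β ≤ 3 / 5) (hν : 0 < ν)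
    (hν1 : ν ≤ 1 / 10) (hκ0 : 0 ≤ κ) (hκ : κ ≤ Real.exp ((1 - β) * x) * (1 / c))
    (hS : S = Real.exp ((5 / 8 - 3 / 8 * β + ν) * x))
    (hY : Y = ⌊Real.exp (((5 * β + 5) / 8 - ν) * x)⌋₊) :
    0 < Y ∧ Y < q ∧ 256 * (q : ℝ) ^ (1 / 2 : ℝ) ≤ Y ∧
    (κ / q * ((11 + ‖riemannZeta (1 / 2)‖) * Real.sqrt Y) +
        8 * (Y : ℝ) ^ (-(1 / 2 : ℝ)) * S * (1 + Real.log q)) *
      (q : ℝ) ^ ((11 * β - 5) / 16 - 3 * ν) ≤ 1 := by
  obtain ⟨hx1, g1, g2, g3, g4, g5, g6, g7⟩ := F
  have hq0 : (0 : ℝ) < q := by exact_mod_cast (Nat.Prime.pos Fact.out : 0 < q)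
  have hqx : (q : ℝ) = Real.exp x := by rw [hx, Real.exp_log hq0]
  have hx0 : 0 < x := by linarith
  set y : ℝ := (5 * β + 5) / 8 - ν with hy
  have hYu : (Y : ℝ) ≤ Real.exp (y * x) := by
    rw [hY]; exact Nat.floor_le (Real.exp_pos _).le
  have hey : Real.exp (y * x) = Real.exp (1 / 2 * x) * Real.exp ((y - 1 / 2) * x) := by
    rw [← Real.exp_add]; congr 1; ring
  have he1 : 1 ≤ Real.exp (1 / 2 * x) := Real.one_le_exp (by positivity)
  have hbig : 512 * Real.exp (1 / 2 * x) ≤ Real.exp (y * x) := by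
    rw [hey]
    nlinarith
  have hYl : Real.exp (y * x) / 2 ≤ Y := by
    have := Nat.lt_floor_add_one (Real.exp (y * x))
    rw [← hY] at this
    linarith
  have hYhalf : 256 * Real.exp (1 / 2 * x) ≤ Y := by linarith
  have hY0 : (0 : ℝ) < Y := by linarith
  refine ⟨by exact_mod_cast hY0, ?_, ?_, ?_⟩
  · have h1 : (Y : ℝ) < q := by
      rw [hqx]
      refine lt_of_le_of_lt hYu (Real.exp_lt_exp.2 ?_)
      have : y < 1 := by rw [hy]; linarith
      nlinarith
    exact_mod_cast h1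
  · rw [hqx, ← Real.exp_mul]
    refine le_trans (le_of_eq ?_) hYhalf
    congr 2
    ring
  · have hδ : (q : ℝ) ^ ((11 * β - 5) / 16 - 3 * ν) = Real.exp (((11 * β - 5) / 16 - 3 * ν) * x) := by
      rw [hqx, ← Real.exp_mul]; congr 1; ring
    rw [hδ, ← hx]
    set A0 : ℝ := 11 + ‖riemannZeta (1 / 2)‖ with hA0
    have hA00 : 0 ≤ A0 := by rw [hA0]; positivity
    have hE1 : κ / q * (A0 * Real.sqrt Y) * Real.exp (((11 * β - 5) / 16 - 3 * ν) * x) ≤ 1 / 2 := by
      have h1 : Real.sqrt Y ≤ Real.exp (y / 2 * x) := by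
        rw [Real.sqrt_le_left (Real.exp_pos _).le]
        refine hYu.trans (le_of_eq ?_)
        rw [← Real.exp_nat_mul]; congr 1; push_cast; ring
      have h2 : κ / q ≤ Real.exp (-(β * x)) * (1 / c) := by
        rw [div_le_iff₀ hq0]
        refine hκ.trans (le_of_eq ?_)
        rw [hqx, mul_right_comm, ← Real.exp_add]
        congr 2
        ring
      calc κ / q * (A0 * Real.sqrt Y) * Real.exp (((11 * β - 5) / 16 - 3 * ν) * x) ≤
            (Real.exp (-(β * x)) * (1 / c)) * (A0 * Real.exp (y / 2 * x)) *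
              Real.exp (((11 * β - 5) / 16 - 3 * ν) * x) := by
            apply mul_le_mul_of_nonneg_right _ (Real.exp_pos _).le
            apply mul_le_mul h2 _ (by positivity) (by positivity)
            exact mul_le_mul_of_nonneg_left h1 hA00
        _ = (A0 * (1 / c)) * Real.exp (-(7 / 2 * ν * x)) := by
            have : Real.exp (-(7 / 2 * ν * x)) = Real.exp (-(β * x)) * Real.exp (y / 2 * x) *
                Real.exp (((11 * β - 5) / 16 - 3 * ν) * x) := by
              rw [← Real.exp_add, ← Real.exp_add]; congr 1; rw [hy]; ring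
            rw [this]; ring
        _ ≤ (Real.exp (7 / 2 * ν * x) / 2) * Real.exp (-(7 / 2 * ν * x)) := by
            apply mul_le_mul_of_nonneg_right _ (Real.exp_pos _).le
            linarith
        _ = 1 / 2 := by
            rw [div_mul_eq_mul_div, ← Real.exp_add, add_neg_cancel, Real.exp_zero]
    have hE2 : 8 * (Y : ℝ) ^ (-(1 / 2 : ℝ)) * S * (1 + x) *
        Real.exp (((11 * β - 5) / 16 - 3 * ν) * x) ≤ 1 / 2 := by
      have h1 : (Y : ℝ) ^ (-(1 / 2 : ℝ)) ≤ 2 * Real.exp (-(y / 2 * x)) := by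
        have h2 : (Y : ℝ) ^ (-(1 / 2 : ℝ)) ≤ (Real.exp (y * x) / 2) ^ (-(1 / 2 : ℝ)) :=
          Real.rpow_le_rpow_of_nonpos (by positivity) hYl (by norm_num)
        refine h2.trans ?_
        rw [Real.div_rpow (Real.exp_pos _).le (by norm_num), ← Real.exp_mul, Real.rpow_neg (by norm_num),
          div_inv_eq_mul, mul_comm]
        have e1 : y * x * (-(1 / 2)) = -(y / 2 * x) := by ring
        rw [e1]
        apply mul_le_mul_of_nonneg_right _ (Real.exp_pos _).le
        rw [← Real.sqrt_eq_rpow, Real.sqrt_le_left (by norm_num)]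
        norm_num
      rw [hS]
      calc 8 * (Y : ℝ) ^ (-(1 / 2 : ℝ)) * Real.exp ((5 / 8 - 3 / 8 * β + ν) * x) * (1 + x) *
            Real.exp (((11 * β - 5) / 16 - 3 * ν) * x) ≤
            8 * (2 * Real.exp (-(y / 2 * x))) * Real.exp ((5 / 8 - 3 / 8 * β + ν) * x) * (1 + x) *
            Real.exp (((11 * β - 5) / 16 - 3 * ν) * x) := by
            apply mul_le_mul_of_nonneg_right _ (Real.exp_pos _).le
            apply mul_le_mul_of_nonneg_right _ (by linarith)
            apply mul_le_mul_of_nonneg_right _ (Real.exp_pos _).le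
            linarith
        _ = 16 * (1 + x) * Real.exp (-(3 / 2 * ν * x)) := by
            have : Real.exp (-(3 / 2 * ν * x)) = Real.exp (-(y / 2 * x)) *
                Real.exp ((5 / 8 - 3 / 8 * β + ν) * x) *
                Real.exp (((11 * β - 5) / 16 - 3 * ν) * x) := by
              rw [← Real.exp_add, ← Real.exp_add]; congr 1; rw [hy]; ring
            rw [this]; ring
        _ ≤ (Real.exp (3 / 2 * ν * x) / 2) * Real.exp (-(3 / 2 * ν * x)) := by
            apply mul_le_mul_of_nonneg_right _ (Real.exp_pos _).le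
            linarith
        _ = 1 / 2 := by
            rw [div_mul_eq_mul_div, ← Real.exp_add, add_neg_cancel, Real.exp_zero]
    rw [add_mul]
    linarith

end Pool.Agent.V8H35.HB
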