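import Pool.Agent.V8H35.HB.E1

/-!
# The lemma of Heath-Brown and Konyagin for several cosets
-/

set_option autoImplicit false

namespace Pool.Agent.V8H35.HB

open Finset

variable {p : ℕ} [Fact p.Prime]

/-- the lemma of Heath-Brown and Konyagin, for `s` cosets -/
theorem hbkS (s t : ℕ) (hs : 1 ≤ s) (hst : 512 * s ≤ t ^ 2) (htp : s * t ^ 4 < p ^ 3)
    (α β : ℕ → ZMod p) (hα : ∀ j, α j ≠ 0) (hβ : ∀ j, β j ≠ 0) (U : Finset (ZMod p))
    (hU : ∀ u ∈ U, ∃ j < s, u ^ t = α j ∧ (u - 1) ^ t = β j) :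
    U.card ^ 3 ≤ 4096 * (s * t) ^ 2 := by
  have ht1 : 1 ≤ t := by
    by_contra hcon
    have : t = 0 := by omega
    subst this
    omega
  have ht2 : s ≤ t ^ 2 := by omega
  obtain ⟨B, hB1, hB2⟩ : ∃ B, B ^ 3 ≤ s * t ∧ s * t < (B + 1) ^ 3 := by
    have hex : ∃ n, s * t < (n + 1) ^ 3 := ⟨s * t, by nlinarith [Nat.zero_le ((s * t) ^ 3), Nat.zero_le ((s * t) ^ 2)]⟩
    refine ⟨Nat.find hex, ?_, Nat.find_spec hex⟩
    rcases Nat.eq_zero_or_pos (Nat.find hex) with h0 | h0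
    · rw [h0]
      simp
    · have h1 := Nat.find_min hex (Nat.sub_lt h0 one_pos)
      have h2 : Nat.find hex - 1 + 1 = Nat.find hex := by omega
      rw [h2] at h1
      omega
  have hB0 : 1 ≤ B := by
    by_contra hcon
    have : B = 0 := by omega
    subst this
    have : 1 ≤ s * t := Nat.mul_pos hs ht1
    omega
  have hBt : B ≤ t := by
    have h1 : B ^ 3 ≤ t ^ 3 := by
      calc B ^ 3 ≤ s * t := hB1
        _ ≤ t ^ 2 * t := Nat.mul_le_mul_right _ ht2
        _ = t ^ 3 := by ring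
    exact le_of_pow_le_pow_left₀ (by norm_num) (by omega) h1
  have hB8 : s * t ≤ 8 * B ^ 3 := by
    have h1 : (B + 1) ^ 3 ≤ (2 * B) ^ 3 := Nat.pow_le_pow_left (by omega) 3
    have h2 : (2 * B) ^ 3 = 8 * B ^ 3 := by ring
    omega
  -- `2 s ≤ B²`
  have hB2s : 2 * s ≤ B ^ 2 := by
    have h1 : (2 * s) ^ 3 ≤ (B ^ 2) ^ 3 := by
      have h2 : 64 * (2 * s) ^ 3 ≤ 64 * (B ^ 2) ^ 3 := by
        calc 64 * (2 * s) ^ 3 = s ^ 2 * (512 * s) := by ring
          _ ≤ s ^ 2 * t ^ 2 := Nat.mul_le_mul_left _ hst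
          _ = (s * t) ^ 2 := by ring
          _ ≤ (8 * B ^ 3) ^ 2 := Nat.pow_le_pow_left hB8 2
          _ = 64 * (B ^ 2) ^ 3 := by ring
      omega
    exact le_of_pow_le_pow_left₀ (by norm_num) (Nat.zero_le _) h1
  set A := t / B with hA
  have hA1 : 1 ≤ A := (Nat.one_le_div_iff (by omega)).2 hBt
  have hAB : A * B ≤ t := Nat.div_mul_le_self t B
  have hAt : A ≤ t := Nat.div_le_self t B
  set D := B ^ 2 / (2 * s) with hD
  have hD1 : 1 ≤ D := (Nat.one_le_div_iff (by omega)).2 hB2s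
  have hDs : 2 * s * D ≤ B ^ 2 := Nat.mul_div_le _ _
  have hDs2 : B ^ 2 ≤ 4 * s * D := by
    have h1 := Nat.lt_mul_div_succ (B ^ 2) (show 0 < 2 * s by omega)
    rw [← hD] at h1
    have h2 : 2 * s * (D + 1) ≤ 2 * s * (2 * D) := Nat.mul_le_mul_left _ (by omega)
    have h3 : 2 * s * (2 * D) = 4 * s * D := by ring
    omega
  have hDA : 2 * D ≤ A := by
    rw [hA, Nat.le_div_iff_mul_le (by omega)]
    have h1 : s * (2 * D * B) ≤ s * t := by
      calc s * (2 * D * B) = 2 * s * D * B := by ring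
        _ ≤ B ^ 2 * B := Nat.mul_le_mul_right _ hDs
        _ = B ^ 3 := by ring
        _ ≤ s * t := hB1
    exact Nat.le_of_mul_le_mul_left h1 (by omega)
  have htB : t * B < p := by
    have h1 : (t * B) ^ 3 < p ^ 3 := by
      calc (t * B) ^ 3 = t ^ 3 * B ^ 3 := by ring
        _ ≤ t ^ 3 * (s * t) := Nat.mul_le_mul_left _ hB1
        _ = s * t ^ 4 := by ring
        _ < _ := htp
    exact lt_of_pow_lt_pow_left₀ 3 (Nat.zero_le _) h1
  have htB' : t * B = t * (B - 1) + t := by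
    obtain ⟨r, rfl⟩ : ∃ r, B = r + 1 := ⟨B - 1, by omega⟩
    rw [Nat.add_sub_cancel]
    ring
  have key := stepanovS (p := p) s t A B D hA1 hAt hAB (by omega) (by
    have e1 : 4 * (s * (D * (A + D))) ≤ 3 * (B ^ 2 * A) := by
      calc 4 * (s * (D * (A + D))) = 2 * s * D * (2 * A + 2 * D) := by ring
        _ ≤ B ^ 2 * (2 * A + A) := Nat.mul_le_mul hDs (by omega)
        _ = 3 * (B ^ 2 * A) := by ring
    have e2 : 0 < B ^ 2 * A := by positivity
    have e3 : B * (B * A) = B ^ 2 * A := by ring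
    rw [e3]
    omega) (by
    have h1 : t ≤ t * B := Nat.le_mul_of_pos_right _ (by omega)
    omega) α β hα hβ U hU
  have k1 : U.card * D ≤ 2 * (t * B) := by omega
  have k2 : U.card * B ≤ 8 * (s * t) := by
    have h1 : B * (U.card * B) ≤ B * (8 * (s * t)) := by
      calc B * (U.card * B) = U.card * B ^ 2 := by ring
        _ ≤ U.card * (4 * s * D) := Nat.mul_le_mul_left _ hDs2
        _ = 4 * s * (U.card * D) := by ring
        _ ≤ 4 * s * (2 * (t * B)) := Nat.mul_le_mul_left _ k1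
        _ = B * (8 * (s * t)) := by ring
    exact Nat.le_of_mul_le_mul_left h1 (by omega)
  have k3 : s * t * U.card ^ 3 ≤ s * t * (4096 * (s * t) ^ 2) := by
    calc s * t * U.card ^ 3 ≤ 8 * B ^ 3 * U.card ^ 3 := Nat.mul_le_mul_right _ hB8
      _ = 8 * (U.card * B) ^ 3 := by ring
      _ ≤ 8 * (8 * (s * t)) ^ 3 := Nat.mul_le_mul_left _ (Nat.pow_le_pow_left k2 3)
      _ = s * t * (4096 * (s * t) ^ 2) := by ring
  exact Nat.le_of_mul_le_mul_left k3 (Nat.mul_pos hs ht1)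

end Pool.Agent.V8H35.HB
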