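import Pool.Agent.V8H35.HB.E2

/-!
# The sum of the squares of a function with bounded sums over small sets
-/

set_option autoImplicit false

namespace Pool.Agent.V8H35.HB

open Finset

lemma tail_sq (m : ℕ) (hm : 1 ≤ m) (N : ℕ) (hN : m ≤ N) :
    ∑ n ∈ Ico m N, 1 / (n : ℝ) ^ 2 ≤ 2 / (m : ℝ) - 2 / (N : ℝ) := by
  induction N, hN using Nat.le_induction with
  | base => simp
  | succ N hN ih =>
    rw [Finset.sum_Ico_succ_top hN]
    have hN0 : (1 : ℝ) ≤ N := by
      have : 1 ≤ N := by omega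
      exact_mod_cast this
    have h1 : 1 / (N : ℝ) ^ 2 ≤ 2 / N - 2 / ((N : ℝ) + 1) := by
      rw [div_sub_div _ _ (by positivity) (by positivity), div_le_div_iff₀ (by positivity) (by positivity)]
      nlinarith
    push_cast
    linarith

/-- the sum of the squares of a function on a finite set, if its sums over small sets are small -/
theorem sum_sq {ι : Type*} (X : Finset ι) (f : ι → ℕ) (t : ℕ) (P : ℝ) (ht : 1 ≤ t)
    (h1 : ∑ x ∈ X, f x ≤ t)
    (h2 : ∀ Y ⊆ X, 1 ≤ Y.card → 512 * Y.card ≤ t ^ 2 → (Y.card : ℝ) * t ^ 4 < P →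
      (∑ x ∈ Y, f x) ^ 3 ≤ 4096 * (Y.card * t) ^ 2)
    (h3 : 512 * (4096 * Real.sqrt t + 1) ≤ (t : ℝ) ^ 2)
    (h4 : (4096 * Real.sqrt t + 1) * (t : ℝ) ^ 4 < P) :
    ∑ x ∈ X, (f x : ℝ) ^ 2 ≤ 16386 * (t * Real.sqrt t) := by
  classical
  have ht0 : (1 : ℝ) ≤ t := by exact_mod_cast ht
  have hs0 : 1 ≤ Real.sqrt t := Real.one_le_sqrt.2 ht0
  have hss : Real.sqrt t * Real.sqrt t = t := Real.mul_self_sqrt (by linarith)
  set Nf : ℕ → ℕ := fun n => (X.filter (fun x => n ≤ f x)).card with hNf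
  -- the large level sets
  have hlev : ∀ n : ℕ, Real.sqrt t < n → (Nf n : ℝ) * (n : ℝ) ^ 3 ≤ 4096 * (t : ℝ) ^ 2 := by
    intro n hn
    have hn0 : (0 : ℝ) < n := by linarith
    by_contra hcon
    push Not at hcon
    set s : ℕ := ⌊4096 * (t : ℝ) ^ 2 / (n : ℝ) ^ 3⌋₊ + 1 with hs
    have hsN : s ≤ Nf n := by
      rw [hs]
      have h5 : 4096 * (t : ℝ) ^ 2 / (n : ℝ) ^ 3 < Nf n := by rwa [div_lt_iff₀ (by positivity)]
      have h6 : (⌊4096 * (t : ℝ) ^ 2 / (n : ℝ) ^ 3⌋₊ : ℝ) < Nf n :=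
        lt_of_le_of_lt (Nat.floor_le (by positivity)) h5
      have h7 : ⌊4096 * (t : ℝ) ^ 2 / (n : ℝ) ^ 3⌋₊ < Nf n := by exact_mod_cast h6
      omega
    obtain ⟨Y, hYX, hYc⟩ := Finset.exists_subset_card_eq hsN
    have hsl : 4096 * (t : ℝ) ^ 2 / (n : ℝ) ^ 3 < s := by
      rw [hs]; push_cast; exact Nat.lt_floor_add_one _
    have hsu : (s : ℝ) ≤ 4096 * Real.sqrt t + 1 := by
      rw [hs]; push_cast
      have h5 : (⌊4096 * (t : ℝ) ^ 2 / (n : ℝ) ^ 3⌋₊ : ℝ) ≤ 4096 * (t : ℝ) ^ 2 / (n : ℝ) ^ 3 :=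
        Nat.floor_le (by positivity)
      have h6 : 4096 * (t : ℝ) ^ 2 / (n : ℝ) ^ 3 ≤ 4096 * Real.sqrt t := by
        rw [div_le_iff₀ (by positivity), mul_assoc]
        apply mul_le_mul_of_nonneg_left _ (by norm_num)
        have h7 : Real.sqrt t ^ 3 ≤ (n : ℝ) ^ 3 := pow_le_pow_left₀ (by linarith) hn.le 3
        calc (t : ℝ) ^ 2 = Real.sqrt t * Real.sqrt t ^ 3 := by
              calc (t : ℝ) ^ 2 = (Real.sqrt t * Real.sqrt t) ^ 2 := by rw [hss]
                _ = _ := by ring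
          _ ≤ Real.sqrt t * (n : ℝ) ^ 3 := mul_le_mul_of_nonneg_left h7 (by linarith)
      linarith
    have hs1 : 1 ≤ s := by omega
    have h5 := h2 Y (hYX.trans (filter_subset _ _)) (by omega) (by
      have : (512 * (Y.card : ℝ)) ≤ (t : ℝ) ^ 2 := by
        rw [hYc]
        exact (mul_le_mul_of_nonneg_left hsu (by norm_num)).trans h3
      exact_mod_cast this) (by
      rw [hYc]
      exact lt_of_le_of_lt (mul_le_mul_of_nonneg_right hsu (by positivity)) h4)
    have h6 : Y.card * n ≤ ∑ x ∈ Y, f x := by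
      rw [← smul_eq_mul]
      apply Finset.card_nsmul_le_sum
      intro x hx
      have := hYX hx
      rw [mem_filter] at this
      exact this.2
    have h7 : (Y.card * n) ^ 3 ≤ 4096 * (Y.card * t) ^ 2 := (Nat.pow_le_pow_left h6 3).trans h5
    rw [hYc] at h7
    have h8 : s ^ 2 * (s * n ^ 3) ≤ s ^ 2 * (4096 * t ^ 2) := by
      calc s ^ 2 * (s * n ^ 3) = (s * n) ^ 3 := by ring
        _ ≤ 4096 * (s * t) ^ 2 := h7
        _ = _ := by ring
    have h9 : s * n ^ 3 ≤ 4096 * t ^ 2 := Nat.le_of_mul_le_mul_left h8 (by positivity)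
    have h10 : (s : ℝ) * (n : ℝ) ^ 3 ≤ 4096 * (t : ℝ) ^ 2 := by exact_mod_cast h9
    rw [div_lt_iff₀ (by positivity)] at hsl
    linarith
  -- the sum of the level sets
  have hsumN : ∑ n ∈ Ico 1 (t + 1), (Nf n : ℝ) ≤ t := by
    have h5 : ∑ n ∈ Ico 1 (t + 1), Nf n ≤ ∑ x ∈ X, f x := by
      have h6 : ∀ n, Nf n = ∑ x ∈ X, if n ≤ f x then 1 else 0 := by
        intro n
        rw [hNf]
        exact Finset.card_filter _ _
      rw [Finset.sum_congr rfl (fun n _ => h6 n), Finset.sum_comm]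
      apply Finset.sum_le_sum
      intro x _
      rw [← Finset.card_filter]
      have h7 : (Ico 1 (t + 1)).filter (fun n => n ≤ f x) ⊆ Ico 1 (f x + 1) := by
        intro n hn
        rw [mem_filter, mem_Ico] at hn
        rw [mem_Ico]
        omega
      have := card_le_card h7
      rw [Nat.card_Ico] at this
      omega
    have h6 := h5.trans h1
    exact_mod_cast h6
  -- the squares
  have hsq : ∑ x ∈ X, (f x : ℝ) ^ 2 ≤ ∑ n ∈ Ico 1 (t + 1), 2 * (n : ℝ) * Nf n := by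
    have h6 : ∀ n : ℕ, 2 * (n : ℝ) * Nf n = ∑ x ∈ X, if n ≤ f x then 2 * (n : ℝ) else 0 := by
      intro n
      rw [hNf, ← Finset.sum_filter, Finset.sum_const, nsmul_eq_mul]
      ring
    rw [Finset.sum_congr rfl (fun n _ => h6 n), Finset.sum_comm]
    apply Finset.sum_le_sum
    intro x hx
    rw [← Finset.sum_filter]
    have hfx : f x ≤ t := by
      refine le_trans ?_ h1
      exact Finset.single_le_sum (f := f) (fun _ _ => Nat.zero_le _) hx
    have h7 : (Ico 1 (t + 1)).filter (fun n => n ≤ f x) = Ico 1 (f x + 1) := by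
      ext n
      rw [mem_filter, mem_Ico, mem_Ico]
      omega
    rw [h7]
    have h8 : ∀ m : ℕ, ∑ n ∈ Ico 1 (m + 1), 2 * (n : ℝ) = m * (m + 1) := by
      intro m
      induction m with
      | zero => simp
      | succ m ih =>
        rw [Finset.sum_Ico_succ_top (by omega), ih]
        push_cast
        ring
    rw [h8]
    have : (0 : ℝ) ≤ f x := Nat.cast_nonneg _
    nlinarith
  refine hsq.trans ?_
  -- the bound
  set m : ℕ := ⌊Real.sqrt t⌋₊ + 1 with hm
  have hm1 : Real.sqrt t < m := by rw [hm]; push_cast; exact Nat.lt_floor_add_one _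
  have hm0 : 1 ≤ m := by omega
  have hmt : m ≤ t + 1 := by
    have h5 : Real.sqrt t ≤ t := by nlinarith
    have : ⌊Real.sqrt t⌋₊ ≤ t := by
      have := Nat.floor_le_floor h5
      rwa [Nat.floor_natCast] at this
    omega
  rw [← Finset.sum_Ico_consecutive _ hm0 hmt]
  have hA : ∑ n ∈ Ico 1 m, 2 * (n : ℝ) * Nf n ≤ 2 * (t * Real.sqrt t) := by
    have h5 : ∀ n ∈ Ico 1 m, 2 * (n : ℝ) * Nf n ≤ 2 * Real.sqrt t * Nf n := by
      intro n hn
      rw [mem_Ico, hm] at hn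
      have h6 : (n : ℝ) ≤ Real.sqrt t := by
        have : (n : ℝ) ≤ (⌊Real.sqrt t⌋₊ : ℝ) := by
          have : n ≤ ⌊Real.sqrt t⌋₊ := by omega
          exact_mod_cast this
        exact this.trans (Nat.floor_le (by linarith))
      apply mul_le_mul_of_nonneg_right _ (Nat.cast_nonneg _)
      linarith
    refine (Finset.sum_le_sum h5).trans ?_
    rw [← Finset.mul_sum]
    have h6 : ∑ n ∈ Ico 1 m, (Nf n : ℝ) ≤ t := by
      refine le_trans ?_ hsumN
      exact Finset.sum_le_sum_of_subset_of_nonneg (Finset.Ico_subset_Ico_right hmt)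
        (fun _ _ _ => Nat.cast_nonneg _)
    have h7 := mul_le_mul_of_nonneg_left h6 (show 0 ≤ 2 * Real.sqrt t by linarith)
    linarith
  have hB : ∑ n ∈ Ico m (t + 1), 2 * (n : ℝ) * Nf n ≤ 16384 * (t * Real.sqrt t) := by
    have h5 : ∀ n ∈ Ico m (t + 1), 2 * (n : ℝ) * Nf n ≤ 8192 * (t : ℝ) ^ 2 * (1 / (n : ℝ) ^ 2) := by
      intro n hn
      rw [mem_Ico] at hn
      have h6 : Real.sqrt t < n := lt_of_lt_of_le hm1 (by exact_mod_cast hn.1)
      have hn0 : (0 : ℝ) < n := by linarith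
      have h7 := hlev n h6
      rw [mul_one_div, le_div_iff₀ (by positivity)]
      calc 2 * (n : ℝ) * Nf n * (n : ℝ) ^ 2 = 2 * ((Nf n : ℝ) * (n : ℝ) ^ 3) := by ring
        _ ≤ 2 * (4096 * (t : ℝ) ^ 2) := mul_le_mul_of_nonneg_left h7 (by norm_num)
        _ = _ := by ring
    refine (Finset.sum_le_sum h5).trans ?_
    rw [← Finset.mul_sum]
    have h6 := tail_sq m hm0 (t + 1) hmt
    have h7 : ∑ n ∈ Ico m (t + 1), 1 / (n : ℝ) ^ 2 ≤ 2 / Real.sqrt t := by
      have h8 : (0 : ℝ) ≤ 2 / ((t + 1 : ℕ) : ℝ) := by positivity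
      have h9 : 2 / (m : ℝ) ≤ 2 / Real.sqrt t :=
        div_le_div_of_nonneg_left (by norm_num) (by linarith) hm1.le
      linarith
    calc 8192 * (t : ℝ) ^ 2 * ∑ n ∈ Ico m (t + 1), 1 / (n : ℝ) ^ 2 ≤
          8192 * (t : ℝ) ^ 2 * (2 / Real.sqrt t) := mul_le_mul_of_nonneg_left h7 (by positivity)
      _ = 16384 * (t * (t / Real.sqrt t)) := by ring
      _ = 16384 * (t * Real.sqrt t) := by rw [Real.div_sqrt]
  linarith

end Pool.Agent.V8H35.HB
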