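import Pool.Agent.V8H35.HB.E3
import Pool.Agent.N286.DE.SumB

/-!
# The additive energy of a multiplicative subgroup and its exponential sums
-/

set_option autoImplicit false

namespace Pool.Agent.V8H35.HB

open Finset
open Pool.Agent.N286.DE (rep sum_rep)
open scoped Classical

variable {p : ℕ} [Fact p.Prime]

/-- the elements `u` with `u ^ t = (u - 1) ^ t = α` -/
noncomputable def UU (p : ℕ) [Fact p.Prime] (t : ℕ) (α : ZMod p) : Finset (ZMod p) :=
  univ.filter (fun u => u ^ t = α ∧ (u - 1) ^ t = α)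

lemma roots_card (t : ℕ) (ht : 1 ≤ t) (α : ZMod p) :
    (univ.filter (fun u : ZMod p => u ^ t = α)).card ≤ t := by
  have h2 : univ.filter (fun u : ZMod p => u ^ t = α) ⊆ (Polynomial.nthRoots t α).toFinset := by
    intro u hu
    rw [Multiset.mem_toFinset, Polynomial.mem_nthRoots (by omega)]
    exact (mem_filter.1 hu).2
  exact (card_le_card h2).trans ((Multiset.toFinset_card_le _).trans (Polynomial.card_nthRoots t α))

lemma UU_disj (t : ℕ) (a b : ZMod p) (hab : a ≠ b) : Disjoint (UU p t a) (UU p t b) := by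
  rw [Finset.disjoint_left]
  intro u hu hu'
  rw [UU, mem_filter] at hu hu'
  exact hab (hu.2.1.symm.trans hu'.2.1)

lemma sum_UU (t : ℕ) (Y : Finset (ZMod p)) : ∑ α ∈ Y, (UU p t α).card = (Y.biUnion (UU p t)).card := by
  rw [Finset.card_biUnion]
  intro a _ b _ hab
  exact UU_disj t a b hab

lemma sum_UU_le (t : ℕ) (ht : 1 ≤ t) :
    ∑ α ∈ (univ.filter (fun α : ZMod p => α ≠ 0)), (UU p t α).card ≤ t := by
  rw [sum_UU]
  refine le_trans ?_ (roots_card (p := p) t ht 1)
  apply Finset.card_le_card_of_injOn (fun u => 1 - u⁻¹)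
  · intro u hu
    rw [mem_coe, mem_biUnion] at hu
    obtain ⟨α, hα, hu⟩ := hu
    rw [mem_filter] at hα
    rw [UU, mem_filter] at hu
    have hu0 : u ≠ 0 := by
      rintro rfl
      rw [zero_pow (by omega)] at hu
      exact hα.2 hu.2.1.symm
    rw [mem_coe, mem_filter]
    refine ⟨mem_univ _, ?_⟩
    have e : 1 - u⁻¹ = (u - 1) / u := by field_simp
    show (1 - u⁻¹) ^ t = 1
    rw [e, div_pow, hu.2.1, hu.2.2, div_self hα.2]
  · intro u _ u' _ h
    simp only at h
    have : u⁻¹ = u'⁻¹ := by linear_combination -h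
    exact inv_injective this

lemma rep_le (t : ℕ) (G : Finset (ZMod p)) (hG : ∀ y ∈ G, y ^ t = 1) {x : ZMod p}
    (hx : x ≠ 0) : rep G x ≤ ((UU p t (x ^ t)⁻¹).card : ℝ) := by
  unfold rep
  have h1 : ((G ×ˢ G).filter fun w => w.1 - w.2 = x).card ≤ (UU p t (x ^ t)⁻¹).card := by
    refine card_le_card_of_injOn (fun w => w.1 / x) ?_ ?_
    · intro w hw
      rw [mem_coe, mem_filter, mem_product] at hw
      rw [mem_coe, UU, mem_filter]
      refine ⟨mem_univ _, ?_, ?_⟩
      · simp only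
        rw [div_pow, hG _ hw.1.1, one_div]
      · have h2 : w.1 / x - 1 = w.2 / x := by
          have h3 : w.1 = w.2 + x := by rw [← hw.2]; ring
          rw [h3, add_div, div_self hx, add_sub_cancel_right]
        simp only
        rw [h2, div_pow, hG _ hw.1.2, one_div]
    · intro w hw w' hw' h2
      rw [mem_coe, mem_filter, mem_product] at hw hw'
      have h3 : w.1 = w'.1 := by
        have h4 := congrArg (fun y => y * x) h2
        simpa [div_mul_cancel₀ _ hx] using h4
      refine Prod.ext h3 ?_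
      have e1 : w.2 = w.1 - x := by rw [← hw.2]; ring
      have e2 : w'.2 = w'.1 - x := by rw [← hw'.2]; ring
      rw [e1, e2, h3]
  exact_mod_cast h1

/-- the additive energy of a set of `t`-th roots of unity -/
theorem energy (t : ℕ) (ht : 1 ≤ t) (G : Finset (ZMod p)) (hG : ∀ y ∈ G, y ^ t = 1)
    (h3 : 512 * (4096 * Real.sqrt t + 1) ≤ (t : ℝ) ^ 2)
    (h4 : (4096 * Real.sqrt t + 1) * (t : ℝ) ^ 4 < (p : ℝ) ^ 3) :
    ∑ u : ZMod p, rep G u ^ 2 ≤ 16387 * ((t : ℝ) ^ 2 * Real.sqrt t) := by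
  have ht0 : (1 : ℝ) ≤ t := by exact_mod_cast ht
  have hs0 : 1 ≤ Real.sqrt t := Real.one_le_sqrt.2 ht0
  have hGt : G.card ≤ t := by
    refine le_trans (card_le_card ?_) (roots_card (p := p) t ht 1)
    intro y hy
    rw [mem_filter]
    exact ⟨mem_univ _, hG y hy⟩
  have hG1 : (G.card : ℝ) ≤ t := by exact_mod_cast hGt
  have h0 : rep G 0 = G.card := by
    unfold rep
    have : (G ×ˢ G).filter (fun w => w.1 - w.2 = 0) = G.image (fun y => (y, y)) := by
      ext ⟨a, b⟩
      simp only [mem_filter, mem_product, mem_image, Prod.mk.injEq]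
      constructor
      · rintro ⟨⟨h1, h2⟩, h3⟩
        exact ⟨a, h1, rfl, sub_eq_zero.1 h3⟩
      · rintro ⟨y, hy, rfl, rfl⟩
        exact ⟨⟨hy, hy⟩, sub_self _⟩
    rw [this, Finset.card_image_of_injective _ (fun a b h => (Prod.mk.inj h).1)]
  rw [← Finset.add_sum_erase univ _ (mem_univ (0 : ZMod p)), h0]
  have hmain := sum_sq (univ.filter (fun α : ZMod p => α ≠ 0)) (fun α => (UU p t α).card) t
    ((p : ℝ) ^ 3) ht (sum_UU_le t ht) (by
      intro Y hY hY1 hY2 hY3
      rw [sum_UU]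
      set s := Y.card with hs
      set e := Y.equivFin with he
      refine hbkS (p := p) s t hY1 hY2 (by
        have : ((s * t ^ 4 : ℕ) : ℝ) < ((p ^ 3 : ℕ) : ℝ) := by push_cast; exact hY3
        exact_mod_cast this)
        (fun j => if h : j < s then ((e.symm ⟨j, h⟩ : Y) : ZMod p) else 1)
        (fun j => if h : j < s then ((e.symm ⟨j, h⟩ : Y) : ZMod p) else 1) ?_ ?_ _ ?_
      · intro j
        by_cases h : j < s
        · simp only [dif_pos h]
          exact (mem_filter.1 (hY (e.symm ⟨j, h⟩).2)).2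
        · simp only [dif_neg h]
          exact one_ne_zero
      · intro j
        by_cases h : j < s
        · simp only [dif_pos h]
          exact (mem_filter.1 (hY (e.symm ⟨j, h⟩).2)).2
        · simp only [dif_neg h]
          exact one_ne_zero
      · intro u hu
        rw [mem_biUnion] at hu
        obtain ⟨α, hα, hu⟩ := hu
        rw [UU, mem_filter] at hu
        refine ⟨(e ⟨α, hα⟩ : Fin s), (e ⟨α, hα⟩).2, ?_⟩
        have h5 : (e ⟨α, hα⟩ : Fin s).1 < s := (e ⟨α, hα⟩).2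
        have e1 : ((e.symm ⟨((e ⟨α, hα⟩ : Fin s) : ℕ), h5⟩ : Y) : ZMod p) = α := by
          have : (⟨((e ⟨α, hα⟩ : Fin s) : ℕ), h5⟩ : Fin s) = e ⟨α, hα⟩ := rfl
          rw [this, Equiv.symm_apply_apply]
        simp only [dif_pos h5, e1]
        exact hu.2) h3 h4
  have h5 : ∑ u ∈ univ.erase (0 : ZMod p), rep G u ^ 2 ≤
      t * ∑ α ∈ univ.filter (fun α : ZMod p => α ≠ 0), ((UU p t α).card : ℝ) ^ 2 := by
    have h6 : ∀ u ∈ univ.erase (0 : ZMod p), rep G u ^ 2 ≤ ((UU p t (u ^ t)⁻¹).card : ℝ) ^ 2 := by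
      intro u hu
      rw [mem_erase] at hu
      refine pow_le_pow_left₀ ?_ (rep_le t G hG hu.1) 2
      unfold rep
      exact Nat.cast_nonneg _
    refine (Finset.sum_le_sum h6).trans ?_
    rw [← Finset.sum_fiberwise_of_maps_to (t := univ.filter (fun α : ZMod p => α ≠ 0))
      (g := fun u : ZMod p => (u ^ t)⁻¹) (fun u hu => by
        rw [mem_erase] at hu
        rw [mem_filter]
        exact ⟨mem_univ _, inv_ne_zero (pow_ne_zero _ hu.1)⟩), Finset.mul_sum]
    apply Finset.sum_le_sum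
    intro α _
    have h7 : ∀ u ∈ (univ.erase (0 : ZMod p)).filter (fun u => (u ^ t)⁻¹ = α),
        ((UU p t (u ^ t)⁻¹).card : ℝ) ^ 2 ≤ ((UU p t α).card : ℝ) ^ 2 := by
      intro u hu
      rw [(mem_filter.1 hu).2]
    refine (Finset.sum_le_card_nsmul _ _ _ h7).trans ?_
    rw [nsmul_eq_mul]
    apply mul_le_mul_of_nonneg_right _ (sq_nonneg _)
    have h8 : ((univ.erase (0 : ZMod p)).filter (fun u => (u ^ t)⁻¹ = α)).card ≤ t := by
      refine le_trans (card_le_card ?_) (roots_card (p := p) t ht α⁻¹)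
      intro u hu
      rw [mem_filter] at hu
      rw [mem_filter]
      exact ⟨mem_univ _, by rw [← hu.2, inv_inv]⟩
    exact_mod_cast h8
  have h6 := mul_le_mul_of_nonneg_left hmain (show (0 : ℝ) ≤ t by linarith)
  have h7 : (G.card : ℝ) ^ 2 ≤ (t : ℝ) ^ 2 * Real.sqrt t := by
    have h8 : (G.card : ℝ) ^ 2 ≤ (t : ℝ) ^ 2 := pow_le_pow_left₀ (Nat.cast_nonneg _) hG1 2
    nlinarith [sq_nonneg (t : ℝ)]
  calc _ ≤ (t : ℝ) ^ 2 * Real.sqrt t + t * (16386 * (t * Real.sqrt t)) := by linarith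
    _ = _ := by ring

end Pool.Agent.V8H35.HB
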