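import Pool.Agent.V8H35.HB.E4

/-!
# Exponential sums over a multiplicative subgroup, twisted by a character
-/

set_option autoImplicit false

namespace Pool.Agent.V8H35.HB

open Finset
open Pool.Agent.N286.DE (rep sum_rep)
open scoped Classical

variable {p : ℕ} [Fact p.Prime]

/-- Parseval's identity -/
lemma parsevalC (r : ZMod p → ℂ) :
    ∑ b : ZMod p, ‖∑ u : ZMod p, r u * ZMod.stdAddChar (N := p) (b * u)‖ ^ 2 = p * ∑ u, ‖r u‖ ^ 2 := by
  have h1 : ∀ b ∈ (univ : Finset (ZMod p)),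
      ((‖∑ u : ZMod p, r u * ZMod.stdAddChar (N := p) (b * u)‖ ^ 2 : ℝ) : ℂ) =
      ∑ u : ZMod p, ∑ u' : ZMod p, (r u * (starRingEnd ℂ) (r u')) *
        ZMod.stdAddChar (N := p) (b * (u - u')) := by
    intro b _
    push_cast
    rw [← Complex.mul_conj', map_sum, sum_mul_sum]
    refine sum_congr rfl fun u _ => sum_congr rfl fun u' _ => ?_
    rw [map_mul (starRingEnd ℂ), ← AddChar.map_neg_eq_conj, mul_sub, sub_eq_add_neg,
      AddChar.map_add_eq_mul]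
    ring
  have h2 : ((∑ b : ZMod p, ‖∑ u : ZMod p, r u * ZMod.stdAddChar (N := p) (b * u)‖ ^ 2 : ℝ) : ℂ) =
      ((p * ∑ u, ‖r u‖ ^ 2 : ℝ) : ℂ) := by
    rw [Complex.ofReal_sum, sum_congr rfl h1, sum_comm]
    have h3 : ∀ u ∈ (univ : Finset (ZMod p)), ∑ b : ZMod p, ∑ u' : ZMod p,
        (r u * (starRingEnd ℂ) (r u')) * ZMod.stdAddChar (N := p) (b * (u - u')) =
        p * ((‖r u‖ ^ 2 : ℝ) : ℂ) := by
      intro u _
      rw [sum_comm]
      have h4 : ∀ u' ∈ (univ : Finset (ZMod p)), ∑ b : ZMod p,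
          (r u * (starRingEnd ℂ) (r u')) * ZMod.stdAddChar (N := p) (b * (u - u')) =
          if u = u' then p * ((‖r u‖ ^ 2 : ℝ) : ℂ) else 0 := by
        intro u' _
        rw [← mul_sum, AddChar.sum_mulShift _ (ZMod.isPrimitive_stdAddChar p), ZMod.card]
        by_cases h : u = u'
        · subst h
          rw [sub_self, if_pos rfl, if_pos rfl, Complex.mul_conj']
          push_cast
          ring
        · rw [if_neg h, if_neg (sub_ne_zero.2 h)]
          simp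
      rw [sum_congr rfl h4, sum_ite_eq, if_pos (mem_univ _)]
    rw [sum_congr rfl h3, ← mul_sum]
    push_cast
    rfl
  exact_mod_cast h2

/-- the fourth moment -/
lemma fourthW (G : Finset (ZMod p)) (β : ZMod p → ℂ) (hβ : ∀ y, ‖β y‖ ≤ 1) :
    ∑ b : ZMod p, ‖∑ y ∈ G, β y * ZMod.stdAddChar (N := p) (b * y)‖ ^ 4 ≤ p * ∑ u, rep G u ^ 2 := by
  set c : ZMod p → ℂ := fun u => ∑ w ∈ (G ×ˢ G).filter (fun w => w.1 - w.2 = u),
    β w.1 * (starRingEnd ℂ) (β w.2) with hc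
  have h1 : ∀ b : ZMod p, ((‖∑ y ∈ G, β y * ZMod.stdAddChar (N := p) (b * y)‖ ^ 2 : ℝ) : ℂ) =
      ∑ u : ZMod p, c u * ZMod.stdAddChar (N := p) (b * u) := by
    intro b
    push_cast
    rw [← Complex.mul_conj', map_sum, sum_mul_sum, ← sum_product']
    rw [← sum_fiberwise (s := G ×ˢ G) (g := fun w => w.1 - w.2)]
    refine sum_congr rfl fun u _ => ?_
    rw [hc]
    simp only
    rw [sum_mul]
    refine sum_congr rfl fun w hw => ?_
    rw [← (mem_filter.1 hw).2, map_mul (starRingEnd ℂ), ← AddChar.map_neg_eq_conj, mul_sub,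
      sub_eq_add_neg, AddChar.map_add_eq_mul]
    ring
  have hcn : ∀ u, ‖c u‖ ≤ rep G u := by
    intro u
    rw [hc]
    refine (norm_sum_le _ _).trans ?_
    have h2 : ∀ w ∈ (G ×ˢ G).filter (fun w => w.1 - w.2 = u),
        ‖β w.1 * (starRingEnd ℂ) (β w.2)‖ ≤ 1 := by
      intro w _
      rw [norm_mul, RCLike.norm_conj]
      exact mul_le_one₀ (hβ _) (norm_nonneg _) (hβ _)
    refine (Finset.sum_le_card_nsmul _ _ _ h2).trans ?_
    unfold rep
    rw [nsmul_eq_mul, mul_one]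
  have h3 : ∀ b ∈ (univ : Finset (ZMod p)), ‖∑ y ∈ G, β y * ZMod.stdAddChar (N := p) (b * y)‖ ^ 4 =
      ‖∑ u : ZMod p, c u * ZMod.stdAddChar (N := p) (b * u)‖ ^ 2 := by
    intro b _
    rw [← h1, Complex.norm_real, Real.norm_eq_abs, abs_of_nonneg (by positivity)]
    ring
  rw [Finset.sum_congr rfl h3, parsevalC]
  apply mul_le_mul_of_nonneg_left _ (Nat.cast_nonneg _)
  exact Finset.sum_le_sum fun u _ => pow_le_pow_left₀ (norm_nonneg _) (hcn u) 2

/-- the sum over a subgroup -/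
noncomputable def SS (K : Subgroup (ZMod p)ˣ) (χ : DirichletCharacter ℂ p) (b : ZMod p) : ℂ :=
  ∑ k : K, χ ((k : (ZMod p)ˣ) : ZMod p) * ZMod.stdAddChar (N := p) (b * ((k : (ZMod p)ˣ) : ZMod p))

lemma SS_shift (K : Subgroup (ZMod p)ˣ) (χ : DirichletCharacter ℂ p) (b : ZMod p) (k : K) :
    ‖SS K χ (b * ((k : (ZMod p)ˣ) : ZMod p))‖ = ‖SS K χ b‖ := by
  have h1 : SS K χ (b * ((k : (ZMod p)ˣ) : ZMod p)) =
      χ (((k : (ZMod p)ˣ)⁻¹ : (ZMod p)ˣ) : ZMod p) * SS K χ b := by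
    unfold SS
    rw [← Equiv.sum_comp (Equiv.mulLeft k) (fun k' : K => χ ((k' : (ZMod p)ˣ) : ZMod p) *
      ZMod.stdAddChar (N := p) (b * ((k' : (ZMod p)ˣ) : ZMod p))), mul_sum]
    apply Finset.sum_congr rfl
    intro k' _
    simp only [Equiv.coe_mulLeft, Subgroup.coe_mul, Units.val_mul, map_mul]
    have h2 : χ (((k : (ZMod p)ˣ)⁻¹ : (ZMod p)ˣ) : ZMod p) * χ ((k : (ZMod p)ˣ) : ZMod p) = 1 := by
      rw [← map_mul, ← Units.val_mul, inv_mul_cancel, Units.val_one, map_one]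
    rw [← mul_assoc, ← mul_assoc, h2, one_mul, mul_assoc b]
  rw [h1, norm_mul]
  have h2 : ‖χ (((k : (ZMod p)ˣ)⁻¹ : (ZMod p)ˣ) : ZMod p)‖ = 1 :=
    DirichletCharacter.unit_norm_eq_one χ _
  rw [h2, one_mul]

lemma inj_val (K : Subgroup (ZMod p)ˣ) :
    Function.Injective (fun k : K => ((k : (ZMod p)ˣ) : ZMod p)) := by
  intro a b h
  exact Subtype.ext (Units.ext h)

/-- **The exponential sum over a subgroup** -/
theorem SS_le (K : Subgroup (ZMod p)ˣ) (χ : DirichletCharacter ℂ p) {b : ZMod p} (hb : b ≠ 0)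
    {t : ℕ} (ht : t = Fintype.card K)
    (h3 : 512 * (4096 * Real.sqrt t + 1) ≤ (t : ℝ) ^ 2)
    (h4 : (4096 * Real.sqrt t + 1) * (t : ℝ) ^ 4 < (p : ℝ) ^ 3) :
    ‖SS K χ b‖ ^ 4 ≤ 16387 * (p * (t * Real.sqrt t)) := by
  have ht1 : 1 ≤ t := by rw [ht]; exact Fintype.card_pos
  have ht0 : (0 : ℝ) < t := by exact_mod_cast ht1
  set G : Finset (ZMod p) := (univ : Finset K).image (fun k : K => ((k : (ZMod p)ˣ) : ZMod p)) with hG
  have hGt : ∀ y ∈ G, y ^ t = 1 := by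
    intro y hy
    rw [hG, mem_image] at hy
    obtain ⟨k, -, rfl⟩ := hy
    have h1 : k ^ t = 1 := by rw [ht]; exact pow_card_eq_one
    have h2 := congrArg (fun k : K => ((k : (ZMod p)ˣ) : ZMod p)) h1
    simpa using h2
  have hSS : ∀ b : ZMod p, SS K χ b = ∑ y ∈ G, χ y * ZMod.stdAddChar (N := p) (b * y) := by
    intro b
    rw [hG, Finset.sum_image (fun a _ b _ h => inj_val K h)]
    rfl
  have h1 := fourthW G (fun y => χ y) (fun y => DirichletCharacter.norm_le_one χ y)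
  have h2 := energy t ht1 G hGt h3 h4
  have h5 : (t : ℝ) * ‖SS K χ b‖ ^ 4 ≤ ∑ b : ZMod p, ‖SS K χ b‖ ^ 4 := by
    have h6 : (t : ℝ) * ‖SS K χ b‖ ^ 4 = ∑ k : K, ‖SS K χ (b * ((k : (ZMod p)ˣ) : ZMod p))‖ ^ 4 := by
      rw [Finset.sum_congr rfl (fun k _ => by rw [SS_shift]), Finset.sum_const, nsmul_eq_mul,
        card_univ, ht]
    rw [h6]
    have h7 : ∑ k : K, ‖SS K χ (b * ((k : (ZMod p)ˣ) : ZMod p))‖ ^ 4 =
        ∑ c ∈ (univ : Finset K).image (fun k : K => b * ((k : (ZMod p)ˣ) : ZMod p)), ‖SS K χ c‖ ^ 4 := by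
      rw [Finset.sum_image]
      intro a _ c _ h
      exact inj_val K (mul_left_cancel₀ hb h)
    rw [h7]
    exact Finset.sum_le_sum_of_subset_of_nonneg (subset_univ _) (fun _ _ _ => by positivity)
  have h6 : ∑ b : ZMod p, ‖SS K χ b‖ ^ 4 ≤ p * (16387 * ((t : ℝ) ^ 2 * Real.sqrt t)) := by
    rw [Finset.sum_congr rfl (fun b _ => by rw [hSS b])]
    exact h1.trans (mul_le_mul_of_nonneg_left h2 (Nat.cast_nonneg _))
  have h7 : (t : ℝ) * ‖SS K χ b‖ ^ 4 ≤ t * (16387 * (p * (t * Real.sqrt t))) := by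
    refine (h5.trans h6).trans (le_of_eq ?_)
    ring
  exact le_of_mul_le_mul_left h7 ht0

end Pool.Agent.V8H35.HB
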