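import Pool.Agent.R311.RES.C1

/-!
# The values of the Hurwitz zeta function at `1/2`: monotonicity
-/

set_option autoImplicit false

namespace Pool.Agent.V8H35.HB

open Filter Topology
open Pool.Agent.R311.RES (G G_half U SG SG_half SG_summable cpow_half sum_G hzv L_half hzv_two hurwitz_two
  val_pos)

/-- the value of the Hurwitz zeta function at `1/2` -/
noncomputable def zr (x : ℝ) : ℝ := (HurwitzZeta.hurwitzZeta (x : UnitAddCircle) (1 / 2)).re

lemma zr_all (x : ℝ) (hx : 0 < x) (hx1 : x ≤ 1) :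
    HurwitzZeta.hurwitzZeta (x : UnitAddCircle) (1 / 2) = ((zr x : ℝ) : ℂ) ∧
    Tendsto (fun N : ℕ => ∑ n ∈ Finset.range N, ((n : ℝ) + x) ^ (-(1 / 2 : ℝ)) -
      2 * Real.sqrt (N + x)) atTop (𝓝 (zr x)) := by
  have hhU : (1 / 2 : ℂ) ∈ U := by
    refine ⟨by norm_num, ?_⟩
    rw [norm_div]
    norm_num
  have h1 := SG_half x hx hx1
  rw [cpow_half x hx.le] at h1
  have h2 := SG_summable x hx hx1 hhU
  set g : ℕ → ℝ := fun n => -(1 / 2) * (n + x) ^ (-(1 / 2 : ℝ)) +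
    (Real.sqrt (n + 1 + x) - Real.sqrt (n + x)) with hg
  have h3 : ∀ n, G x n (1 / 2) = ((g n : ℝ) : ℂ) := fun n => G_half x hx n
  have h4 : SG x (1 / 2) = ((∑' n, g n : ℝ) : ℂ) := by
    rw [SG, Complex.ofReal_tsum]
    exact tsum_congr h3
  have h5 : Summable g := by
    have : Summable (fun n => ((g n : ℝ) : ℂ)) := h2.congr h3
    exact Complex.summable_ofReal.1 this
  have h9 : HurwitzZeta.hurwitzZeta (x : UnitAddCircle) (1 / 2) =
      ((-2 * (∑' n, g n) - 2 * Real.sqrt x : ℝ) : ℂ) := by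
    have h10 := h4.symm.trans h1
    have h11 : (1 / 2 : ℂ) * HurwitzZeta.hurwitzZeta (x : UnitAddCircle) (1 / 2) =
        -(((∑' n, g n : ℝ) : ℂ)) - ((Real.sqrt x : ℝ) : ℂ) := by
      rw [h10]; ring
    calc HurwitzZeta.hurwitzZeta (x : UnitAddCircle) (1 / 2) =
        2 * ((1 / 2 : ℂ) * HurwitzZeta.hurwitzZeta (x : UnitAddCircle) (1 / 2)) := by ring
      _ = _ := by rw [h11]; push_cast; ring
  have h10 : zr x = -2 * (∑' n, g n) - 2 * Real.sqrt x := by
    unfold zr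
    rw [h9, Complex.ofReal_re]
  refine ⟨by rw [h10]; exact h9, ?_⟩
  rw [h10]
  have h11 : ∀ N : ℕ, ∑ n ∈ Finset.range N, ((n : ℝ) + x) ^ (-(1 / 2 : ℝ)) -
      2 * Real.sqrt (N + x) = -2 * (∑ n ∈ Finset.range N, g n) - 2 * Real.sqrt x := by
    intro N
    induction N with
    | zero => simp
    | succ N ih =>
      rw [Finset.sum_range_succ, Finset.sum_range_succ]
      have e : ((N + 1 : ℕ) : ℝ) + x = N + 1 + x := by push_cast; ring
      rw [e]
      have e2 : g N = -(1 / 2) * (N + x) ^ (-(1 / 2 : ℝ)) +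
        (Real.sqrt (N + 1 + x) - Real.sqrt (N + x)) := rfl
      rw [e2]
      linarith
  simp_rw [h11]
  exact (h5.hasSum.tendsto_sum_nat.const_mul (-2)).sub_const _

/-- monotonicity -/
lemma zr_anti {x y : ℝ} (hx : 0 < x) (hxy : x ≤ y) (hy : y ≤ 1) : zr y ≤ zr x := by
  refine le_of_tendsto_of_tendsto' (zr_all y (by linarith) hy).2 (zr_all x hx (by linarith)).2 ?_
  intro N
  apply sub_le_sub
  · apply Finset.sum_le_sum
    intro n _
    exact Real.rpow_le_rpow_of_nonpos (by positivity) (by linarith) (by norm_num)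
  · apply mul_le_mul_of_nonneg_left _ (by norm_num)
    exact Real.sqrt_le_sqrt (by linarith)

lemma zr_two {x : ℝ} (hx : 0 < x) (hx1 : x ≤ 1) : |zr x - x ^ (-(1 / 2 : ℝ))| ≤ 3 := by
  have h1 := hurwitz_two x hx hx1
  rw [(zr_all x hx hx1).1, ← Complex.ofReal_sub, Complex.norm_real, Real.norm_eq_abs] at h1
  exact h1

section
variable {q : ℕ} [Fact q.Prime]

/-- the value at an integer -/
noncomputable def zq (q : ℕ) (n : ℕ) : ℝ := (q : ℝ) ^ (-(1 / 2 : ℝ)) * zr (n / q)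

lemma zq_anti {m n : ℕ} (hm : 0 < m) (hmn : m ≤ n) (hn : n ≤ q) : zq q n ≤ zq q m := by
  have hq : (0 : ℝ) < q := by exact_mod_cast (Nat.Prime.pos Fact.out : 0 < q)
  unfold zq
  apply mul_le_mul_of_nonneg_left _ (by positivity)
  apply zr_anti
  · positivity
  · exact div_le_div_of_nonneg_right (by exact_mod_cast hmn) hq.le
  · rw [div_le_one hq]; exact_mod_cast hn

lemma zq_two {n : ℕ} (hn0 : 0 < n) (hn : n ≤ q) :
    |zq q n - (n : ℝ) ^ (-(1 / 2 : ℝ))| ≤ 3 * (q : ℝ) ^ (-(1 / 2 : ℝ)) := by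
  have hq : (0 : ℝ) < q := by exact_mod_cast (Nat.Prime.pos Fact.out : 0 < q)
  have hn0' : (0 : ℝ) < n := by exact_mod_cast hn0
  have h1 := zr_two (x := (n : ℝ) / q) (by positivity) (by rw [div_le_one hq]; exact_mod_cast hn)
  have h2 : ((n : ℝ) ^ (-(1 / 2 : ℝ)) : ℝ) =
      (q : ℝ) ^ (-(1 / 2 : ℝ)) * (((n : ℝ) / q : ℝ) ^ (-(1 / 2 : ℝ))) := by
    rw [Real.div_rpow hn0'.le hq.le]
    have : (q : ℝ) ^ (-(1 / 2 : ℝ)) ≠ 0 := by positivity
    field_simp
  unfold zq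
  rw [h2, ← mul_sub, abs_mul, abs_of_nonneg (by positivity : (0 : ℝ) ≤ (q : ℝ) ^ (-(1 / 2 : ℝ))), mul_comm (3 : ℝ)]
  exact mul_le_mul_of_nonneg_left h1 (by positivity)

lemma hzv_eq (a : (ZMod q)ˣ) : hzv q a = ((zq q (a : ZMod q).val : ℝ) : ℂ) := by
  have : NeZero q := ⟨(Nat.Prime.pos Fact.out).ne'⟩
  have hq : (0 : ℝ) < q := by exact_mod_cast (Nat.Prime.pos Fact.out : 0 < q)
  have ha : (0 : ℝ) < (a : ZMod q).val := by exact_mod_cast val_pos a
  unfold hzv zq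
  rw [(zr_all _ (by positivity : (0 : ℝ) < ((a : ZMod q).val / q : ℝ)) (by
    rw [div_le_one hq]
    exact_mod_cast (ZMod.val_lt (a : ZMod q)).le)).1]
  push_cast
  rfl

/-- the sum of all values -/
lemma sum_zq : -‖riemannZeta (1 / 2)‖ ≤ ∑ a : (ZMod q)ˣ, zq q (a : ZMod q).val := by
  have hqp : q.Prime := Fact.out
  have : NeZero q := ⟨hqp.pos.ne'⟩
  have hq1 : (1 : ℝ) < q := by exact_mod_cast hqp.one_lt
  have h1 := L_half (1 : DirichletCharacter ℂ q)
  have h2 : DirichletCharacter.LFunction (1 : DirichletCharacter ℂ q) (1 / 2) =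
      ((∑ a : (ZMod q)ˣ, zq q (a : ZMod q).val : ℝ) : ℂ) := by
    rw [h1]
    push_cast
    apply Finset.sum_congr rfl
    intro a _
    rw [MulChar.one_apply (Units.isUnit a), one_mul, hzv_eq]
  have h3 := DirichletCharacter.LFunctionTrivChar_eq_mul_riemannZeta (N := q) (s := 1 / 2) (by norm_num)
  rw [DirichletCharacter.LFunctionTrivChar] at h3
  rw [h2, hqp.primeFactors, Finset.prod_singleton] at h3
  have h4 : |∑ a : (ZMod q)ˣ, zq q (a : ZMod q).val| ≤ ‖riemannZeta (1 / 2)‖ := by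
    rw [← Real.norm_eq_abs, ← Complex.norm_real, h3, norm_mul]
    refine mul_le_of_le_one_left (norm_nonneg _) ?_
    have h5 : (1 : ℂ) - (q : ℂ) ^ (-(1 / 2) : ℂ) = ((1 - (q : ℝ) ^ (-(1 / 2 : ℝ)) : ℝ) : ℂ) := by
      rw [Complex.ofReal_sub, Complex.ofReal_cpow (by positivity)]
      norm_num
    rw [h5, Complex.norm_real, Real.norm_eq_abs, abs_le]
    have h6 : (q : ℝ) ^ (-(1 / 2 : ℝ)) ≤ 1 :=
      Real.rpow_le_one_of_one_le_of_nonpos hq1.le (by norm_num)
    have h7 : 0 ≤ (q : ℝ) ^ (-(1 / 2 : ℝ)) := by positivity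
    constructor <;> linarith
  exact (abs_le.1 h4).1

end

end Pool.Agent.V8H35.HB
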