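import Pool.Agent.V8H35.HB.E5
import Pool.Agent.V8H35.HB.E6

/-!
# Sums over a coset of a subgroup of a function of bounded variation
-/

set_option autoImplicit false

namespace Pool.Agent.V8H35.HB

open Finset
open scoped Classical

variable {q : ℕ} [Fact q.Prime]

lemma inv_dist (v : ℕ) (h0 : 0 < v) (h1 : v < q) :
    1 / ‖ZMod.stdAddChar (N := q) ((v : ℕ) : ZMod q) - 1‖ ≤ (q : ℝ) / 4 * (1 / (v : ℝ) + 1 / ((q : ℝ) - v)) := by
  have hq0 : (0 : ℝ) < q := by exact_mod_cast (Nat.Prime.pos Fact.out : 0 < q)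
  have hv0 : (0 : ℝ) < v := by exact_mod_cast h0
  have hvq : (v : ℝ) < q := by exact_mod_cast h1
  have hqv : (0 : ℝ) < q - v := by linarith
  have e1 : ‖ZMod.stdAddChar (N := q) ((v : ℕ) : ZMod q) - 1‖ = |2 * Real.sin (Real.pi * (v / q))| := by
    have h2 := ZMod.stdAddChar_coe (N := q) (v : ℤ)
    push_cast at h2
    have h3 : (2 * (Real.pi : ℂ) * Complex.I * v / q) = Complex.I * ((2 * Real.pi * (v / q) : ℝ) : ℂ) := by
      push_cast; ring
    rw [h2, h3, Complex.norm_exp_I_mul_ofReal_sub_one, Real.norm_eq_abs]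
    congr 3
    ring
  have hx0 : 0 < (v : ℝ) / q := by positivity
  have hx1 : (v : ℝ) / q < 1 := by rwa [div_lt_one hq0]
  have hpi := Real.pi_pos
  rw [e1]
  rcases le_total ((v : ℝ) / q) (1 / 2) with h | h
  · have hs : 2 * ((v : ℝ) / q) ≤ Real.sin (Real.pi * (v / q)) := by
      have := Real.mul_le_sin (x := Real.pi * (v / q)) (by positivity) (by nlinarith)
      have e : 2 / Real.pi * (Real.pi * ((v : ℝ) / q)) = 2 * ((v : ℝ) / q) := by field_simp
      linarith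
    have h3 : 4 * ((v : ℝ) / q) ≤ |2 * Real.sin (Real.pi * (v / q))| := by
      refine le_trans ?_ (le_abs_self _)
      linarith
    calc 1 / |2 * Real.sin (Real.pi * (v / q))| ≤ 1 / (4 * ((v : ℝ) / q)) :=
          one_div_le_one_div_of_le (by positivity) h3
      _ = (q : ℝ) / 4 * (1 / (v : ℝ)) := by field_simp
      _ ≤ _ := by
          apply mul_le_mul_of_nonneg_left _ (by positivity)
          have : 0 < 1 / ((q : ℝ) - v) := by positivity
          linarith
  · have hs : 2 * (1 - (v : ℝ) / q) ≤ Real.sin (Real.pi * (v / q)) := by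
      have := Real.mul_le_sin (x := Real.pi * (1 - v / q))
        (mul_nonneg hpi.le (by linarith)) (by nlinarith)
      have e : 2 / Real.pi * (Real.pi * (1 - (v : ℝ) / q)) = 2 * (1 - (v : ℝ) / q) := by field_simp
      have e2 : Real.sin (Real.pi * (1 - (v : ℝ) / q)) = Real.sin (Real.pi * (v / q)) := by
        rw [show Real.pi * (1 - (v : ℝ) / q) = Real.pi - Real.pi * (v / q) by ring, Real.sin_pi_sub]
      linarith
    have h3 : 4 * (1 - (v : ℝ) / q) ≤ |2 * Real.sin (Real.pi * (v / q))| := by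
      refine le_trans ?_ (le_abs_self _)
      linarith
    have h4 : 1 - (v : ℝ) / q = (q - v) / q := by field_simp
    rw [h4] at h3
    calc 1 / |2 * Real.sin (Real.pi * (v / q))| ≤ 1 / (4 * (((q : ℝ) - v) / q)) :=
          one_div_le_one_div_of_le (by positivity) h3
      _ = (q : ℝ) / 4 * (1 / ((q : ℝ) - v)) := by field_simp
      _ ≤ _ := by
          apply mul_le_mul_of_nonneg_left _ (by positivity)
          have : 0 < 1 / (v : ℝ) := by positivity
          linarith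

lemma sum_zmod {R : Type*} [AddCommMonoid R] (f : ZMod q → R) :
    ∑ x : ZMod q, f x = ∑ v ∈ range q, f (v : ZMod q) := by
  have : NeZero q := ⟨(Nat.Prime.pos Fact.out).ne'⟩
  refine Finset.sum_bij' (fun x _ => x.val) (fun v _ => (v : ZMod q)) ?_ ?_ ?_ ?_ ?_
  · intro x _
    exact mem_range.2 (ZMod.val_lt x)
  · intro v _
    exact mem_univ _
  · intro x _
    exact ZMod.natCast_zmod_val x
  · intro v hv
    exact ZMod.val_cast_of_lt (mem_range.1 hv)
  · intro x _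
    rw [ZMod.natCast_zmod_val x]

lemma sum_inv_dist : ∑ b ∈ univ.erase (0 : ZMod q), 1 / ‖ZMod.stdAddChar (N := q) b - 1‖ ≤
    (q : ℝ) / 2 * (1 + Real.log q) := by
  have hqp : q.Prime := Fact.out
  have : NeZero q := ⟨hqp.pos.ne'⟩
  have hq0 : (0 : ℝ) < q := by exact_mod_cast hqp.pos
  have h1 : ∑ b ∈ univ.erase (0 : ZMod q), 1 / ‖ZMod.stdAddChar (N := q) b - 1‖ =
      ∑ v ∈ Ico 1 q, 1 / ‖ZMod.stdAddChar (N := q) (v : ZMod q) - 1‖ := by
    refine Finset.sum_bij' (fun x _ => x.val) (fun v _ => (v : ZMod q)) ?_ ?_ ?_ ?_ ?_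
    · intro x hx
      rw [mem_erase] at hx
      rw [mem_Ico]
      refine ⟨Nat.pos_of_ne_zero fun h => hx.1 ?_, ZMod.val_lt x⟩
      exact (ZMod.val_eq_zero x).1 h
    · intro v hv
      rw [mem_Ico] at hv
      rw [mem_erase]
      refine ⟨fun h => ?_, mem_univ _⟩
      rw [ZMod.natCast_eq_zero_iff] at h
      have := Nat.le_of_dvd (by omega) h
      omega
    · intro x _
      exact ZMod.natCast_zmod_val x
    · intro v hv
      exact ZMod.val_cast_of_lt (mem_Ico.1 hv).2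
    · intro x _
      rw [ZMod.natCast_zmod_val x]
  rw [h1]
  have h2 : ∀ v ∈ Ico 1 q, 1 / ‖ZMod.stdAddChar (N := q) (v : ZMod q) - 1‖ ≤
      (q : ℝ) / 4 * (1 / (v : ℝ) + 1 / ((q : ℝ) - v)) := by
    intro v hv
    rw [mem_Ico] at hv
    exact inv_dist v (by omega) hv.2
  refine (Finset.sum_le_sum h2).trans ?_
  rw [← Finset.mul_sum, Finset.sum_add_distrib]
  have h3 : ∑ v ∈ Ico 1 q, 1 / ((q : ℝ) - v) = ∑ v ∈ Ico 1 q, 1 / (v : ℝ) := by
    refine Finset.sum_bij' (fun v _ => q - v) (fun v _ => q - v) ?_ ?_ ?_ ?_ ?_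
    · intro v hv; rw [mem_Ico] at hv ⊢; omega
    · intro v hv; rw [mem_Ico] at hv ⊢; omega
    · intro v hv; rw [mem_Ico] at hv; omega
    · intro v hv; rw [mem_Ico] at hv; omega
    · intro v hv
      rw [mem_Ico] at hv
      rw [Nat.cast_sub hv.2.le]
  have h4 : ∑ v ∈ Ico 1 q, 1 / (v : ℝ) ≤ 1 + Real.log q := by
    refine le_trans ?_ (harmonic_le_one_add_log q)
    rw [harmonic_eq_sum_Icc]
    push_cast
    rw [Finset.sum_congr rfl (fun b _ => one_div _)]
    apply sum_le_sum_of_subset_of_nonneg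
    · intro b hb
      rw [mem_Ico] at hb
      rw [mem_Icc]
      omega
    · intro b _ _
      positivity
  rw [h3]
  calc (q : ℝ) / 4 * (∑ v ∈ Ico 1 q, 1 / (v : ℝ) + ∑ v ∈ Ico 1 q, 1 / (v : ℝ)) ≤
        (q : ℝ) / 4 * ((1 + Real.log q) + (1 + Real.log q)) :=
        mul_le_mul_of_nonneg_left (add_le_add h4 h4) (by positivity)
    _ = _ := by ring

/-- the Fourier transform -/
noncomputable def FT (M : ZMod q → ℝ) (b : ZMod q) : ℂ :=
  ∑ x : ZMod q, (M x : ℂ) * ZMod.stdAddChar (N := q) (-(b * x))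

lemma FT_inv (M : ZMod q → ℝ) (x : ZMod q) :
    ∑ b : ZMod q, FT M b * ZMod.stdAddChar (N := q) (b * x) = q * (M x : ℂ) := by
  unfold FT
  have h1 : ∀ b ∈ (univ : Finset (ZMod q)), (∑ y : ZMod q, (M y : ℂ) * ZMod.stdAddChar (N := q) (-(b * y))) *
      ZMod.stdAddChar (N := q) (b * x) = ∑ y : ZMod q, (M y : ℂ) * ZMod.stdAddChar (N := q) (b * (x - y)) := by
    intro b _
    rw [sum_mul]
    refine sum_congr rfl fun y _ => ?_
    rw [mul_assoc, ← AddChar.map_add_eq_mul]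
    congr 2
    ring
  rw [sum_congr rfl h1, sum_comm]
  have h2 : ∀ y ∈ (univ : Finset (ZMod q)), ∑ b : ZMod q, (M y : ℂ) * ZMod.stdAddChar (N := q) (b * (x - y)) =
      if x = y then q * (M x : ℂ) else 0 := by
    intro y _
    rw [← mul_sum, AddChar.sum_mulShift _ (ZMod.isPrimitive_stdAddChar q), ZMod.card]
    by_cases h : x = y
    · subst h
      rw [sub_self, if_pos rfl, if_pos rfl]
      ring
    · rw [if_neg h, if_neg (sub_ne_zero.2 h)]
      simp
  rw [sum_congr rfl h2, sum_ite_eq, if_pos (mem_univ _)]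

lemma FT_le (M : ZMod q → ℝ) (b : ZMod q) :
    ‖FT M b‖ * ‖ZMod.stdAddChar (N := q) b - 1‖ ≤ ∑ x : ZMod q, |M (x + 1) - M x| := by
  have h1 : FT M b * (ZMod.stdAddChar (N := q) b - 1) =
      ∑ x : ZMod q, ((M (x + 1) - M x : ℝ) : ℂ) * ZMod.stdAddChar (N := q) (-(b * x)) := by
    have h2 : FT M b * ZMod.stdAddChar (N := q) b =
        ∑ x : ZMod q, (M (x + 1) : ℂ) * ZMod.stdAddChar (N := q) (-(b * x)) := by
      unfold FT
      rw [sum_mul, ← Equiv.sum_comp (Equiv.addRight (1 : ZMod q))]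
      refine sum_congr rfl fun x _ => ?_
      simp only [Equiv.coe_addRight]
      rw [mul_assoc, ← AddChar.map_add_eq_mul]
      congr 2
      ring
    rw [mul_sub, mul_one, h2]
    unfold FT
    rw [← sum_sub_distrib]
    refine sum_congr rfl fun x _ => ?_
    push_cast
    ring
  rw [← norm_mul, h1]
  refine (norm_sum_le _ _).trans (sum_le_sum fun x _ => ?_)
  rw [norm_mul, Complex.norm_real, Real.norm_eq_abs]
  refine mul_le_of_le_one_right (abs_nonneg _) ?_
  exact (AddChar.norm_apply _ _).le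

/-- **Sums of a function of bounded variation over a coset** -/
theorem sum_coset (K : Subgroup (ZMod q)ˣ) (χ : DirichletCharacter ℂ q) (M : ZMod q → ℝ) {TV S : ℝ}
    (hTV : ∑ x : ZMod q, |M (x + 1) - M x| ≤ TV) (hS : ∀ b : ZMod q, b ≠ 0 → ‖SS K χ b‖ ≤ S)
    (c : (ZMod q)ˣ) :
    ‖∑ k : K, χ ((k : (ZMod q)ˣ) : ZMod q) * (M ((c * (k : (ZMod q)ˣ) : (ZMod q)ˣ) : ZMod q) : ℂ) -
      (((∑ x : ZMod q, M x) / q : ℝ) : ℂ) * SS K χ 0‖ ≤ TV * S * (1 + Real.log q) / 2 := by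
  have hqp : q.Prime := Fact.out
  have hq0 : (0 : ℝ) < q := by exact_mod_cast hqp.pos
  have hqc : (q : ℂ) ≠ 0 := by exact_mod_cast hqp.ne_zero
  have hTV0 : 0 ≤ TV := le_trans (Finset.sum_nonneg fun _ _ => abs_nonneg _) hTV
  have hS0 : 0 ≤ S := by
    have := hS 1 one_ne_zero
    exact le_trans (norm_nonneg _) this
  have h1 : (q : ℂ) * ∑ k : K, χ ((k : (ZMod q)ˣ) : ZMod q) *
      (M ((c * (k : (ZMod q)ˣ) : (ZMod q)ˣ) : ZMod q) : ℂ) =
      ∑ b : ZMod q, FT M b * SS K χ (b * (c : ZMod q)) := by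
    rw [mul_sum]
    have h2 : ∀ k ∈ (univ : Finset K), (q : ℂ) * (χ ((k : (ZMod q)ˣ) : ZMod q) *
      (M ((c * (k : (ZMod q)ˣ) : (ZMod q)ˣ) : ZMod q) : ℂ)) =
      ∑ b : ZMod q, FT M b * (χ ((k : (ZMod q)ˣ) : ZMod q) *
        ZMod.stdAddChar (N := q) (b * (c : ZMod q) * ((k : (ZMod q)ˣ) : ZMod q))) := by
      intro k _
      rw [mul_left_comm, ← FT_inv, mul_sum]
      refine sum_congr rfl fun b _ => ?_
      rw [Units.val_mul, ← mul_assoc b]
      ring
    rw [sum_congr rfl h2, sum_comm]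
    refine sum_congr rfl fun b _ => ?_
    rw [← mul_sum]
    rfl
  have h2 : FT M 0 = ((∑ x : ZMod q, M x : ℝ) : ℂ) := by
    unfold FT
    push_cast
    refine sum_congr rfl fun x _ => ?_
    rw [zero_mul, neg_zero, AddChar.map_zero_eq_one, mul_one]
  rw [← Finset.add_sum_erase univ _ (mem_univ (0 : ZMod q)), h2, zero_mul] at h1
  have h3 : ‖∑ b ∈ univ.erase (0 : ZMod q), FT M b * SS K χ (b * (c : ZMod q))‖ ≤
      TV * S * ((q : ℝ) / 2 * (1 + Real.log q)) := by
    refine (norm_sum_le _ _).trans ?_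
    have h4 : ∀ b ∈ univ.erase (0 : ZMod q), ‖FT M b * SS K χ (b * (c : ZMod q))‖ ≤
        TV * S * (1 / ‖ZMod.stdAddChar (N := q) b - 1‖) := by
      intro b hb
      rw [mem_erase] at hb
      have hb1 : 0 < ‖ZMod.stdAddChar (N := q) b - 1‖ := by
        rw [norm_pos_iff, sub_ne_zero]
        intro h
        apply hb.1
        apply ZMod.injective_stdAddChar
        rw [h, AddChar.map_zero_eq_one]
      have h5 := (FT_le M b).trans hTV
      have h6 : ‖FT M b‖ ≤ TV * (1 / ‖ZMod.stdAddChar (N := q) b - 1‖) := by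
        rw [mul_one_div, le_div_iff₀ hb1]
        exact h5
      rw [norm_mul]
      calc ‖FT M b‖ * ‖SS K χ (b * (c : ZMod q))‖ ≤ TV * (1 / ‖ZMod.stdAddChar (N := q) b - 1‖) * S :=
            mul_le_mul h6 (hS _ (mul_ne_zero hb.1 c.ne_zero)) (norm_nonneg _) (by positivity)
        _ = _ := by ring
    refine (Finset.sum_le_sum h4).trans ?_
    rw [← Finset.mul_sum]
    exact mul_le_mul_of_nonneg_left sum_inv_dist (by positivity)
  have h4 : ∑ k : K, χ ((k : (ZMod q)ˣ) : ZMod q) * (M ((c * (k : (ZMod q)ˣ) : (ZMod q)ˣ) : ZMod q) : ℂ) -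
      (((∑ x : ZMod q, M x) / q : ℝ) : ℂ) * SS K χ 0 =
      (1 / (q : ℂ)) * ∑ b ∈ univ.erase (0 : ZMod q), FT M b * SS K χ (b * (c : ZMod q)) := by
    have h5 : ∑ k : K, χ ((k : (ZMod q)ˣ) : ZMod q) * (M ((c * (k : (ZMod q)ˣ) : (ZMod q)ˣ) : ZMod q) : ℂ) =
        (1 / (q : ℂ)) * (((∑ x : ZMod q, M x : ℝ) : ℂ) * SS K χ 0 +
          ∑ b ∈ univ.erase (0 : ZMod q), FT M b * SS K χ (b * (c : ZMod q))) := by
      rw [← h1]
      field_simp
    rw [h5]
    push_cast
    ring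
  rw [h4, norm_mul, norm_div, norm_one, Complex.norm_natCast]
  calc 1 / (q : ℝ) * ‖∑ b ∈ univ.erase (0 : ZMod q), FT M b * SS K χ (b * (c : ZMod q))‖ ≤
        1 / (q : ℝ) * (TV * S * ((q : ℝ) / 2 * (1 + Real.log q))) :=
        mul_le_mul_of_nonneg_left h3 (by positivity)
    _ = _ := by field_simp

end Pool.Agent.V8H35.HB
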