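import Pool.Agent.V8H35.HB.E7
import Pool.Agent.R311.RES.B4

/-!
# The sums of the values of the Hurwitz zeta function over a coset of a subgroup: a lower bound
-/

set_option autoImplicit false

namespace Pool.Agent.V8H35.HB

open Finset
open scoped Classical
open Pool.Agent.R311.RES (val_pos sum_rsqrt)

variable {q : ℕ} [Fact q.Prime]

/-- the truncated function -/
noncomputable def MY (q Y : ℕ) (x : ZMod q) : ℝ := zq q (max x.val Y)

lemma MY_TV {Y : ℕ} (hY : 0 < Y) (hYq : Y < q) :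
    ∑ x : ZMod q, |MY q Y (x + 1) - MY q Y x| ≤ 16 * (Y : ℝ) ^ (-(1 / 2 : ℝ)) := by
  have hqp : q.Prime := Fact.out
  have : NeZero q := ⟨hqp.pos.ne'⟩
  have hY0 : (0 : ℝ) < Y := by exact_mod_cast hY
  rw [sum_zmod]
  obtain ⟨r, hr⟩ : ∃ r, q = r + 1 := ⟨q - 1, by have := hqp.pos; omega⟩
  have hv : ∀ v, v < q → MY q Y ((v : ℕ) : ZMod q) = zq q (max v Y) := by
    intro v hv
    unfold MY
    rw [ZMod.val_cast_of_lt hv]
  have h1 : ∑ v ∈ range q, |MY q Y (((v : ℕ) : ZMod q) + 1) - MY q Y ((v : ℕ) : ZMod q)| =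
      ∑ v ∈ range r, (zq q (max v Y) - zq q (max (v + 1) Y)) + (zq q Y - zq q r) := by
    nth_rewrite 1 [hr]
    rw [Finset.sum_range_succ]
    congr 1
    · apply Finset.sum_congr rfl
      intro v hv'
      rw [mem_range] at hv'
      have e : ((v : ℕ) : ZMod q) + 1 = ((v + 1 : ℕ) : ZMod q) := by push_cast; rfl
      rw [e, hv _ (by omega), hv _ (by omega), abs_sub_comm, abs_of_nonneg]
      rw [sub_nonneg]
      exact zq_anti (by omega) (by omega) (by omega)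
    · have e : ((r : ℕ) : ZMod q) + 1 = ((0 : ℕ) : ZMod q) := by
        have : ((r : ℕ) : ZMod q) + 1 = ((r + 1 : ℕ) : ZMod q) := by push_cast; rfl
        rw [this, ← hr, ZMod.natCast_self, Nat.cast_zero]
      rw [e, hv _ hqp.pos, hv _ (by omega), max_eq_right (by omega), max_eq_left (by omega),
        abs_of_nonneg]
      rw [sub_nonneg]
      exact zq_anti hY (by omega) (by omega)
  have h2 : ∑ v ∈ range r, (zq q (max v Y) - zq q (max (v + 1) Y)) = zq q Y - zq q r := by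
    rw [Finset.sum_range_sub' (fun v => zq q (max v Y))]
    rw [max_eq_right (by omega), max_eq_left (by omega)]
  rw [h1, h2]
  have h3 := abs_le.1 (zq_two (q := q) hY hYq.le)
  have h4 := abs_le.1 (zq_two (q := q) (n := r) (by omega) (by omega))
  have h5 : (q : ℝ) ^ (-(1 / 2 : ℝ)) ≤ (Y : ℝ) ^ (-(1 / 2 : ℝ)) :=
    Real.rpow_le_rpow_of_nonpos hY0 (by exact_mod_cast hYq.le) (by norm_num)
  have h6 : 0 ≤ (r : ℝ) ^ (-(1 / 2 : ℝ)) := by positivity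
  linarith [h3.2, h4.1]

/-- the sum of the truncated function -/
lemma MY_sum {Y : ℕ} (hY : 0 < Y) (hYq : Y < q) :
    -((11 + ‖riemannZeta (1 / 2)‖) * Real.sqrt Y) ≤ ∑ x : ZMod q, MY q Y x := by
  have hqp : q.Prime := Fact.out
  have : NeZero q := ⟨hqp.pos.ne'⟩
  have hq0 : (0 : ℝ) < q := by exact_mod_cast hqp.pos
  have hq1 : (1 : ℝ) ≤ q := by exact_mod_cast hqp.one_lt.le
  have hY0 : (0 : ℝ) < Y := by exact_mod_cast hY
  have hY1 : (1 : ℝ) ≤ Y := by exact_mod_cast hY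
  have hYq' : (Y : ℝ) ≤ q := by exact_mod_cast hYq.le
  have hsY : 1 ≤ Real.sqrt Y := Real.one_le_sqrt.2 hY1
  have hqr : (q : ℝ) ^ (-(1 / 2 : ℝ)) ≤ 1 := Real.rpow_le_one_of_one_le_of_nonpos hq1 (by norm_num)
  have hqr0 : 0 ≤ (q : ℝ) ^ (-(1 / 2 : ℝ)) := by positivity
  have hYr : (q : ℝ) ^ (-(1 / 2 : ℝ)) ≤ (Y : ℝ) ^ (-(1 / 2 : ℝ)) :=
    Real.rpow_le_rpow_of_nonpos hY0 hYq' (by norm_num)
  have hYY : (Y : ℝ) * (Y : ℝ) ^ (-(1 / 2 : ℝ)) = Real.sqrt Y := by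
    rw [Real.sqrt_eq_rpow]
    nth_rewrite 1 [← Real.rpow_one (Y : ℝ)]
    rw [← Real.rpow_add hY0]
    norm_num
  have h1 : ∑ x : ZMod q, MY q Y x = MY q Y 0 + ∑ a : (ZMod q)ˣ, MY q Y (a : ZMod q) := by
    rw [← Finset.add_sum_erase univ _ (mem_univ (0 : ZMod q))]
    congr 1
    have h2 : univ.erase (0 : ZMod q) = (univ : Finset (ZMod q)ˣ).image (fun a : (ZMod q)ˣ => (a : ZMod q)) := by
      ext x
      rw [mem_erase, mem_image]
      constructor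
      · intro hx
        exact ⟨Units.mk0 x hx.1, mem_univ _, rfl⟩
      · rintro ⟨a, -, rfl⟩
        exact ⟨a.ne_zero, mem_univ _⟩
    rw [h2, Finset.sum_image (fun a _ b _ h => Units.ext h)]
  have h0 : -3 ≤ MY q Y 0 := by
    unfold MY
    rw [ZMod.val_zero, max_eq_right (by omega)]
    have h3 := abs_le.1 (zq_two (q := q) hY hYq.le)
    have h4 : 0 ≤ (Y : ℝ) ^ (-(1 / 2 : ℝ)) := by positivity
    linarith [h3.1]
  have h2 := sum_zq (q := q)
  have h3 : ∑ a : (ZMod q)ˣ, (zq q (a : ZMod q).val - MY q Y (a : ZMod q)) ≤ 8 * Real.sqrt Y := by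
    have h4 : ∀ a ∈ (univ : Finset (ZMod q)ˣ), zq q (a : ZMod q).val - MY q Y (a : ZMod q) ≤
        if (a : ZMod q).val ≤ Y then ((a : ZMod q).val : ℝ) ^ (-(1 / 2 : ℝ)) +
          6 * (q : ℝ) ^ (-(1 / 2 : ℝ)) else 0 := by
      intro a _
      unfold MY
      have ha := val_pos a
      split_ifs with h
      · rw [max_eq_right h]
        have h5 := abs_le.1 (zq_two (q := q) hY hYq.le)
        have h6 := abs_le.1 (zq_two (q := q) ha (ZMod.val_lt (a : ZMod q)).le)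
        have h7 : 0 ≤ (Y : ℝ) ^ (-(1 / 2 : ℝ)) := by positivity
        linarith [h5.1, h6.2]
      · rw [max_eq_left (by omega), sub_self]
    refine (Finset.sum_le_sum h4).trans ?_
    rw [← Finset.sum_filter]
    have h5 : ∑ a ∈ (univ : Finset (ZMod q)ˣ).filter (fun a : (ZMod q)ˣ => (a : ZMod q).val ≤ Y),
        (((a : ZMod q).val : ℝ) ^ (-(1 / 2 : ℝ)) + 6 * (q : ℝ) ^ (-(1 / 2 : ℝ))) ≤
        ∑ n ∈ Icc 1 Y, ((n : ℝ) ^ (-(1 / 2 : ℝ)) + 6 * (q : ℝ) ^ (-(1 / 2 : ℝ))) := by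
      have h6 : ∑ a ∈ (univ : Finset (ZMod q)ˣ).filter (fun a : (ZMod q)ˣ => (a : ZMod q).val ≤ Y),
        (((a : ZMod q).val : ℝ) ^ (-(1 / 2 : ℝ)) + 6 * (q : ℝ) ^ (-(1 / 2 : ℝ))) =
        ∑ n ∈ ((univ : Finset (ZMod q)ˣ).filter (fun a : (ZMod q)ˣ => (a : ZMod q).val ≤ Y)).image
          (fun a : (ZMod q)ˣ => (a : ZMod q).val), ((n : ℝ) ^ (-(1 / 2 : ℝ)) + 6 * (q : ℝ) ^ (-(1 / 2 : ℝ))) := by
        rw [Finset.sum_image]
        intro a _ b _ h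
        exact Units.ext (ZMod.val_injective q h)
      rw [h6]
      apply Finset.sum_le_sum_of_subset_of_nonneg _ (fun n _ _ => by positivity)
      intro n hn
      rw [mem_image] at hn
      obtain ⟨a, ha, rfl⟩ := hn
      rw [mem_filter] at ha
      rw [mem_Icc]
      exact ⟨val_pos a, ha.2⟩
    refine h5.trans ?_
    rw [Finset.sum_add_distrib, Finset.sum_const, nsmul_eq_mul, Nat.card_Icc]
    have h6 := sum_rsqrt Y
    have h7 : ((Y + 1 - 1 : ℕ) : ℝ) * (6 * (q : ℝ) ^ (-(1 / 2 : ℝ))) ≤ 6 * Real.sqrt Y := by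
      rw [Nat.add_sub_cancel, ← hYY]
      have := mul_le_mul_of_nonneg_left hYr hY0.le
      linarith
    linarith
  rw [Finset.sum_sub_distrib] at h3
  rw [h1]
  have h4 : ‖riemannZeta (1 / 2)‖ ≤ ‖riemannZeta (1 / 2)‖ * Real.sqrt Y :=
    le_mul_of_one_le_right (norm_nonneg _) hsY
  linarith

/-- the weight of the small integers -/
noncomputable def wY (Y n : ℕ) : ℝ := if 256 * n ≤ Y then (n : ℝ) ^ (-(1 / 2 : ℝ)) / 2 else 0

lemma wY_le {Y : ℕ} (hY : 0 < Y) (hYq : Y < q) (a : (ZMod q)ˣ) :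
    wY Y (a : ZMod q).val ≤ zq q (a : ZMod q).val - MY q Y (a : ZMod q) := by
  have hqp : q.Prime := Fact.out
  have : NeZero q := ⟨hqp.pos.ne'⟩
  have hY0 : (0 : ℝ) < Y := by exact_mod_cast hY
  have ha := val_pos a
  have haq := ZMod.val_lt (a : ZMod q)
  unfold wY MY
  set n := (a : ZMod q).val with hn
  split_ifs with h
  · rw [max_eq_right (by omega)]
    have h5 := abs_le.1 (zq_two (q := q) hY hYq.le)
    have h6 := abs_le.1 (zq_two (q := q) ha haq.le)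
    have hn0 : (0 : ℝ) < n := by exact_mod_cast ha
    have h7 : (Y : ℝ) ^ (-(1 / 2 : ℝ)) ≤ (n : ℝ) ^ (-(1 / 2 : ℝ)) / 16 := by
      have h8 : (Y : ℝ) ^ (-(1 / 2 : ℝ)) ≤ (256 * n : ℝ) ^ (-(1 / 2 : ℝ)) :=
        Real.rpow_le_rpow_of_nonpos (by positivity) (by exact_mod_cast h) (by norm_num)
      have h9 : (256 * n : ℝ) ^ (-(1 / 2 : ℝ)) = (n : ℝ) ^ (-(1 / 2 : ℝ)) / 16 := by
        rw [Real.mul_rpow (by norm_num) hn0.le]
        have : (256 : ℝ) ^ (-(1 / 2 : ℝ)) = 1 / 16 := by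
          rw [show (256 : ℝ) = 16 ^ (2 : ℝ) by norm_num, ← Real.rpow_mul (by norm_num)]
          norm_num
        rw [this]
        ring
      rw [← h9]
      exact h8
    have h8 : (q : ℝ) ^ (-(1 / 2 : ℝ)) ≤ (Y : ℝ) ^ (-(1 / 2 : ℝ)) :=
      Real.rpow_le_rpow_of_nonpos hY0 (by exact_mod_cast hYq.le) (by norm_num)
    linarith [h5.2, h6.1]
  · rw [sub_nonneg]
    exact zq_anti ha (le_max_left _ _) (max_le haq.le hYq.le)

/-- **The lower bound for the sum over a coset** -/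
theorem T_lower (K : Subgroup (ZMod q)ˣ) {S : ℝ} (hS : ∀ b : ZMod q, b ≠ 0 → ‖SS K 1 b‖ ≤ S)
    {Y : ℕ} (hY : 0 < Y) (hYq : Y < q) (c : (ZMod q)ˣ) :
    ∑ k : K, wY Y ((c * (k : (ZMod q)ˣ) : (ZMod q)ˣ) : ZMod q).val -
      ((Fintype.card K : ℝ) / q * ((11 + ‖riemannZeta (1 / 2)‖) * Real.sqrt Y) +
        8 * (Y : ℝ) ^ (-(1 / 2 : ℝ)) * S * (1 + Real.log q)) ≤
      ∑ k : K, zq q ((c * (k : (ZMod q)ˣ) : (ZMod q)ˣ) : ZMod q).val := by
  have hqp : q.Prime := Fact.out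
  have : NeZero q := ⟨hqp.pos.ne'⟩
  have hq0 : (0 : ℝ) < q := by exact_mod_cast hqp.pos
  have h1 := sum_coset K 1 (MY q Y) (MY_TV hY hYq) hS c
  have h2 : ∑ k : K, (1 : DirichletCharacter ℂ q) ((k : (ZMod q)ˣ) : ZMod q) *
      (MY q Y ((c * (k : (ZMod q)ˣ) : (ZMod q)ˣ) : ZMod q) : ℂ) =
      ((∑ k : K, MY q Y ((c * (k : (ZMod q)ˣ) : (ZMod q)ˣ) : ZMod q) : ℝ) : ℂ) := by
    push_cast
    apply Finset.sum_congr rfl
    intro k _
    rw [MulChar.one_apply (Units.isUnit (k : (ZMod q)ˣ)), one_mul]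
  have h3 : SS K 1 (0 : ZMod q) = ((Fintype.card K : ℝ) : ℂ) := by
    unfold SS
    rw [Finset.sum_congr rfl (g := fun _ => (1 : ℂ)) (fun k _ => by
      rw [MulChar.one_apply (Units.isUnit (k : (ZMod q)ˣ)), one_mul, zero_mul, AddChar.map_zero_eq_one])]
    simp
  rw [h2, h3, ← Complex.ofReal_mul, ← Complex.ofReal_sub, Complex.norm_real, Real.norm_eq_abs] at h1
  have h4 := (abs_le.1 h1).1
  have h5 := MY_sum (q := q) hY hYq
  have h6 : (Fintype.card K : ℝ) / q * (-((11 + ‖riemannZeta (1 / 2)‖) * Real.sqrt Y)) ≤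
      (Fintype.card K : ℝ) / q * ∑ x : ZMod q, MY q Y x := mul_le_mul_of_nonneg_left h5 (by positivity)
  have h7 : ∑ k : K, wY Y ((c * (k : (ZMod q)ˣ) : (ZMod q)ˣ) : ZMod q).val ≤
      ∑ k : K, zq q ((c * (k : (ZMod q)ˣ) : (ZMod q)ˣ) : ZMod q).val -
      ∑ k : K, MY q Y ((c * (k : (ZMod q)ˣ) : (ZMod q)ˣ) : ZMod q) := by
    rw [← Finset.sum_sub_distrib]
    exact Finset.sum_le_sum fun k _ => wY_le hY hYq _
  have e1 : (∑ x : ZMod q, MY q Y x) / q * (Fintype.card K : ℝ) =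
      (Fintype.card K : ℝ) / q * ∑ x : ZMod q, MY q Y x := by ring
  rw [e1] at h4
  have e2 : 16 * (Y : ℝ) ^ (-(1 / 2 : ℝ)) * S * (1 + Real.log q) / 2 =
      8 * (Y : ℝ) ^ (-(1 / 2 : ℝ)) * S * (1 + Real.log q) := by ring
  rw [e2] at h4
  linarith

end Pool.Agent.V8H35.HB
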