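import Pool.Agent.V8H35.HB.E8
import Pool.Agent.R311.RES.A5

/-!
# The resonance inequality for a subgroup, with the lower bound for the sums over cosets

The proofs follow the starting files `Pool.Agent.R311.RES.A3` and `A5`; the new point is the use of the
lower bound for the sums of the values of the Hurwitz zeta function over the cosets of the annihilator.
-/

set_option autoImplicit false

namespace Pool.Agent.V8H35.HB

open Finset
open scoped Classical
open Pool.Agent.R311.RES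

variable {q : ℕ} [Fact q.Prime]

theorem res_mainY {α β : Type*} (H : Subgroup (DirichletCharacter ℂ q)) (I : Finset α)
    (E : Finset β) (src tgt : β → α) (π : α → (ZMod q)ˣ) (lab : β → (ZMod q)ˣ)
    (hs : ∀ e ∈ E, src e ∈ I) (ht : ∀ e ∈ E, tgt e ∈ I)
    (hπ : ∀ e ∈ E, π (tgt e) = lab e * π (src e))
    (is : ∀ e ∈ E, ∀ e' ∈ E, lab e = lab e' → src e = src e' → e = e')
    (it : ∀ e ∈ E, ∀ e' ∈ E, lab e = lab e' → tgt e = tgt e' → e = e')
    (V : ℝ) (hV : ∀ χ ∈ H, ‖DirichletCharacter.LFunction χ (1 / 2)‖ ≤ V) {Y : ℕ} {err : ℝ}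
    (herr : 0 ≤ err)
    (hT : ∀ c : (ZMod q)ˣ, ∑ k : ann H, wY Y ((c * (k : (ZMod q)ˣ) : (ZMod q)ˣ) : ZMod q).val - err ≤
      ∑ k : ann H, zq q ((c * (k : (ZMod q)ˣ) : (ZMod q)ˣ) : ZMod q).val)
    (hlY : ∀ e ∈ E, 256 * (lab e : ZMod q).val ≤ Y) :
    ∑ e ∈ E, ((lab e : ZMod q).val : ℝ) ^ (-(1 / 2 : ℝ)) ≤ 2 * (V * #I + err * (#I : ℝ) ^ 2) := by
  set K : ℝ := (Fintype.card (ann H) : ℝ) with hK
  have hK0 : 0 < K := by
    have : 0 < Fintype.card (ann H) := Fintype.card_pos
    rw [hK]; exact_mod_cast this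
  set N : (ZMod q)ˣ → ℕ := fun g => (I.filter (fun i => π i * g⁻¹ ∈ ann H)).card with hN
  set r : (ZMod q)ˣ → ℝ := fun g => Real.sqrt (N g) with hr
  have hsq : ∀ g, r g ^ 2 = N g := fun g => Real.sq_sqrt (Nat.cast_nonneg _)
  have hr0 : ∀ g, 0 ≤ r g := fun g => Real.sqrt_nonneg _
  have hinv : ∀ g k : (ZMod q)ˣ, k ∈ ann H → r (g * k) = r g := by
    intro g k hk
    simp only [hr, hN]
    have : ∀ i : α, π i * (g * k)⁻¹ ∈ ann H ↔ π i * g⁻¹ ∈ ann H := by
      intro i
      rw [mul_inv, ← mul_assoc]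
      exact Subgroup.mul_mem_cancel_right _ ((ann H).inv_mem hk)
    simp_rw [this]
  have hone : ∀ b : (ZMod q)ˣ, ∑ g : (ZMod q)ˣ, (if b * g⁻¹ ∈ ann H then (1 : ℝ) else 0) = K := by
    intro b
    have := sum_inv H (fun _ => (1 : ℝ)) (fun _ _ _ => rfl) b
    rw [this, mul_one]
  have hNsum : ∑ g, (N g : ℝ) = #I * K := by
    have h1 : ∀ g, (N g : ℝ) = ∑ i ∈ I, (if π i * g⁻¹ ∈ ann H then (1 : ℝ) else 0) := by
      intro g
      simp only [hN]
      rw [Finset.card_filter]
      push_cast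
      rfl
    rw [Finset.sum_congr rfl (fun g _ => h1 g), Finset.sum_comm,
      Finset.sum_congr rfl (fun i _ => hone (π i)), Finset.sum_const, nsmul_eq_mul]
  -- the inequality
  have hmain := res_ineq H r hinv (hzv q) (fun χ => DirichletCharacter.LFunction χ (1 / 2)) V
    (fun χ _ => L_half χ) hV
  have hr2 : ∑ g, r g ^ 2 = #I * K := by
    rw [Finset.sum_congr rfl (fun g _ => hsq g), hNsum]
  rw [hr2] at hmain
  -- the count of edges
  set M : (ZMod q)ˣ → (ZMod q)ˣ → ℕ := fun a g =>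
    (E.filter (fun e => lab e = a ∧ π (src e) * g⁻¹ ∈ ann H)).card with hM
  have hM1 : ∀ a g, M a g ≤ N g := by
    intro a g
    simp only [hM, hN]
    refine Finset.card_le_card_of_injOn src ?_ ?_
    · intro e he
      rw [mem_coe, mem_filter] at he
      rw [mem_coe, mem_filter]
      exact ⟨hs e he.1, he.2.2⟩
    · intro e he e' he' h
      rw [mem_coe, mem_filter] at he he'
      exact is e he.1 e' he'.1 (he.2.1.trans he'.2.1.symm) h
  have hM2 : ∀ a g, M a g ≤ N (a * g) := by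
    intro a g
    simp only [hM, hN]
    refine Finset.card_le_card_of_injOn tgt ?_ ?_
    · intro e he
      rw [mem_coe, mem_filter] at he
      rw [mem_coe, mem_filter]
      refine ⟨ht e he.1, ?_⟩
      rw [hπ e he.1, he.2.1]
      have : a * π (src e) * (a * g)⁻¹ = π (src e) * g⁻¹ := by
        rw [mul_inv, mul_comm a, mul_assoc, mul_inv_cancel_left]
      rw [this]
      exact he.2.2
    · intro e he e' he' h
      rw [mem_coe, mem_filter] at he he'
      exact it e he.1 e' he'.1 (he.2.1.trans he'.2.1.symm) h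
  have hMr : ∀ a g, (M a g : ℝ) ≤ r g * r (a * g) := by
    intro a g
    have h1 : (M a g : ℝ) = Real.sqrt (M a g) * Real.sqrt (M a g) :=
      (Real.mul_self_sqrt (Nat.cast_nonneg _)).symm
    rw [h1]
    apply mul_le_mul (Real.sqrt_le_sqrt (by exact_mod_cast hM1 a g))
      (Real.sqrt_le_sqrt (by exact_mod_cast hM2 a g)) (Real.sqrt_nonneg _) (hr0 _)
  have hMsum : ∀ a, ∑ g, (M a g : ℝ) = K * ((E.filter (fun e => lab e = a)).card : ℝ) := by
    intro a
    have h1 : ∀ g, (M a g : ℝ) = ∑ e ∈ E.filter (fun e => lab e = a),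
        (if π (src e) * g⁻¹ ∈ ann H then (1 : ℝ) else 0) := by
      intro g
      simp only [hM]
      rw [← Finset.filter_filter, Finset.card_filter]
      push_cast
      rfl
    rw [Finset.sum_congr rfl (fun g _ => h1 g), Finset.sum_comm,
      Finset.sum_congr rfl (fun e _ => hone (π (src e))), Finset.sum_const, nsmul_eq_mul, mul_comm]
  set C : (ZMod q)ˣ → ℝ := fun a => ∑ g, r g * r (a * g) with hC
  have hC0 : ∀ a, 0 ≤ C a := fun a => Finset.sum_nonneg fun g _ => mul_nonneg (hr0 _) (hr0 _)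
  have hC1 : ∀ a, K * ((E.filter (fun e => lab e = a)).card : ℝ) ≤ C a := by
    intro a
    rw [← hMsum a]
    exact Finset.sum_le_sum fun g _ => hMr a g
  have hCsum : ∑ a, C a ≤ (#I * K) ^ 2 := by
    have h1 : ∑ a, C a = (∑ g, r g) * (∑ g, r g) := by
      simp only [hC]
      rw [Finset.sum_comm, Finset.sum_mul]
      apply Finset.sum_congr rfl
      intro g _
      rw [← Finset.mul_sum]
      congr 1
      exact Equiv.sum_comp (Equiv.mulRight g) r
    have h2 : ∑ g, r g ≤ #I * K := by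
      rw [← hNsum]
      exact Finset.sum_le_sum fun g _ => sqrt_nat_le _
    rw [h1, sq]
    exact mul_le_mul h2 h2 (Finset.sum_nonneg fun g _ => hr0 g) (by positivity)
  have hCinv : ∀ (a : (ZMod q)ˣ) (k : ann H), C (a * (k : (ZMod q)ˣ)) = C a := by
    intro a k
    simp only [hC]
    apply Finset.sum_congr rfl
    intro g _
    congr 1
    have e : a * (k : (ZMod q)ˣ) * g = a * g * (k : (ZMod q)ˣ) := by
      rw [mul_assoc, mul_comm (k : (ZMod q)ˣ) g, ← mul_assoc]
    rw [e]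
    exact hinv _ _ k.2
  have hKc : (∑ _k : ann H, (1 : ℝ)) = K := by
    rw [Finset.sum_const, nsmul_eq_mul, mul_one, card_univ, hK]
  have havg : ∀ F : (ZMod q)ˣ → ℝ, K * ∑ a, F a * C a =
      ∑ a, C a * ∑ k : ann H, F (a * (k : (ZMod q)ˣ)) := by
    intro F
    have h1 : K * ∑ a, F a * C a = ∑ k : ann H, ∑ a : (ZMod q)ˣ, F (a * (k : (ZMod q)ˣ)) * C a := by
      rw [← hKc, Finset.sum_mul]
      apply Finset.sum_congr rfl
      intro k _
      rw [one_mul, ← Equiv.sum_comp (Equiv.mulRight (k : (ZMod q)ˣ))]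
      apply Finset.sum_congr rfl
      intro a _
      simp only [Equiv.coe_mulRight]
      rw [hCinv]
    rw [h1, Finset.sum_comm]
    apply Finset.sum_congr rfl
    intro a _
    rw [Finset.mul_sum]
    apply Finset.sum_congr rfl
    intro k _
    ring
  have hz : ∑ a : (ZMod q)ˣ, (hzv q a).re * C a = ∑ a : (ZMod q)ˣ, zq q (a : ZMod q).val * C a := by
    apply Finset.sum_congr rfl
    intro a _
    rw [hzv_eq, Complex.ofReal_re]
  have hlow1 : K * ∑ a : (ZMod q)ˣ, wY Y (a : ZMod q).val * C a - err * (#I * K) ^ 2 ≤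
      K * ∑ a : (ZMod q)ˣ, zq q (a : ZMod q).val * C a := by
    rw [havg (fun a => wY Y (a : ZMod q).val), havg (fun a => zq q (a : ZMod q).val)]
    have h1 : ∑ a : (ZMod q)ˣ, C a * (∑ k : ann H, wY Y ((a * (k : (ZMod q)ˣ) : (ZMod q)ˣ) : ZMod q).val - err) ≤
        ∑ a : (ZMod q)ˣ, C a * ∑ k : ann H, zq q ((a * (k : (ZMod q)ˣ) : (ZMod q)ˣ) : ZMod q).val :=
      Finset.sum_le_sum fun a _ => mul_le_mul_of_nonneg_left (hT a) (hC0 a)
    refine le_trans ?_ h1
    simp only [mul_sub]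
    rw [Finset.sum_sub_distrib, ← Finset.sum_mul]
    have h2 := mul_le_mul_of_nonneg_left hCsum herr
    linarith
  have hw : K * ∑ e ∈ E, ((lab e : ZMod q).val : ℝ) ^ (-(1 / 2 : ℝ)) ≤
      2 * ∑ a : (ZMod q)ˣ, wY Y (a : ZMod q).val * C a := by
    have h4 : ∑ e ∈ E, ((lab e : ZMod q).val : ℝ) ^ (-(1 / 2 : ℝ)) =
        2 * ∑ a : (ZMod q)ˣ, ((E.filter (fun e => lab e = a)).card : ℝ) * wY Y (a : ZMod q).val := by
      rw [← Finset.sum_fiberwise E lab, Finset.mul_sum]
      apply Finset.sum_congr rfl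
      intro a _
      have h5 : ∀ e ∈ E.filter (fun e => lab e = a), ((lab e : ZMod q).val : ℝ) ^ (-(1 / 2 : ℝ)) =
          2 * wY Y (a : ZMod q).val := by
        intro e he
        rw [mem_filter] at he
        have h6 := hlY e he.1
        rw [he.2] at h6 ⊢
        unfold wY
        rw [if_pos h6]
        ring
      rw [Finset.sum_congr rfl h5, Finset.sum_const, nsmul_eq_mul]
      ring
    rw [h4]
    have h5 : K * (2 * ∑ a : (ZMod q)ˣ, ((E.filter (fun e => lab e = a)).card : ℝ) * wY Y (a : ZMod q).val) =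
        2 * ∑ a : (ZMod q)ˣ, wY Y (a : ZMod q).val * (K * ((E.filter (fun e => lab e = a)).card : ℝ)) := by
      rw [mul_left_comm, Finset.mul_sum]
      congr 1
      apply Finset.sum_congr rfl
      intro a _
      ring
    rw [h5]
    apply mul_le_mul_of_nonneg_left _ (by norm_num)
    apply Finset.sum_le_sum
    intro a _
    apply mul_le_mul_of_nonneg_left (hC1 a)
    unfold wY
    split_ifs <;> positivity
  rw [hz] at hmain
  have hK2 : K * (K * ∑ e ∈ E, ((lab e : ZMod q).val : ℝ) ^ (-(1 / 2 : ℝ))) ≤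
      K * (K * (2 * (V * #I + err * (#I : ℝ) ^ 2))) := by
    have h1 := mul_le_mul_of_nonneg_left hw hK0.le
    have h2 := mul_le_mul_of_nonneg_left hmain hK0.le
    calc _ ≤ K * (2 * ∑ a : (ZMod q)ˣ, wY Y (a : ZMod q).val * C a) := h1
      _ = 2 * (K * ∑ a : (ZMod q)ˣ, wY Y (a : ZMod q).val * C a) := by ring
      _ ≤ 2 * (K * (V * (#I * K)) + err * (#I * K) ^ 2) := by linarith
      _ = _ := by ring
  exact le_of_mul_le_mul_left (le_of_mul_le_mul_left hK2 hK0) hK0

section
variable {κ : ℕ}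

theorem res_blocksY (H : Subgroup (DirichletCharacter ℂ q)) (P : Fin κ → Finset ℕ)
    (m t : Fin κ → ℕ) (y : Fin κ → ℝ) (hpr : ∀ i, ∀ p ∈ P i, p.Prime)
    (hcop : ∀ i, ∀ p ∈ P i, p.Coprime q) (hdis : ∀ i j, i ≠ j → Disjoint (P i) (P j))
    (hy0 : ∀ i, 0 < y i) (hy : ∀ i, ∀ p ∈ P i, (p : ℝ) ≤ y i) (hm : ∀ i, m i ≤ (P i).card)
    (V : ℝ)
    (hV : ∀ χ ∈ H, ‖DirichletCharacter.LFunction χ (1 / 2)‖ ≤ V) {Y : ℕ} {err : ℝ}
    (herr : 0 ≤ err)
    (hT : ∀ c : (ZMod q)ˣ, ∑ k : ann H, wY Y ((c * (k : (ZMod q)ˣ) : (ZMod q)ˣ) : ZMod q).val - err ≤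
      ∑ k : ann H, zq q ((c * (k : (ZMod q)ˣ) : (ZMod q)ˣ) : ZMod q).val)
    (hYq : Y < q) (hyY : 256 * ∏ i, y i ^ (2 * t i) ≤ Y) :
    ∏ i, (((m i).choose (t i) : ℝ) * (((P i).card - m i).choose (t i) : ℝ) / (2 * y i) ^ (t i)) ≤
      2 * (V + err * (∏ i, (((P i).card.choose (m i) : ℝ) * 2 ^ (m i)))) := by
  set I := Fintype.piFinset (fun i => X (P i) (m i)) with hI
  set E := Fintype.piFinset (fun i => EE (P i) (m i) (t i)) with hE
  have hq : (0 : ℝ) < q := by exact_mod_cast (Nat.Prime.pos Fact.out : 0 < q)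
  have memE : ∀ e ∈ E, ∀ i, e i ∈ EE (P i) (m i) (t i) := fun e he => Fintype.mem_piFinset.1 he
  have hlt : ∀ e ∈ E, labN e < q := by
    intro e he
    have h1 := labN_le P m t y hy e (memE e he)
    have h2 : (256 : ℝ) * (labN e : ℝ) ≤ Y := (mul_le_mul_of_nonneg_left h1 (by norm_num)).trans hyY
    have h3 : 256 * labN e ≤ Y := by exact_mod_cast h2
    omega
  have hval : ∀ e ∈ E, ((labG q e : (ZMod q)ˣ) : ZMod q).val = labN e := by
    intro e he
    rw [labG_val P m t hcop e (memE e he), ZMod.val_natCast, Nat.mod_eq_of_lt (hlt e he)]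
  have hlab : ∀ e ∈ E, ∀ e' ∈ E, labG q e = labG q e' → labN e = labN e' := by
    intro e he e' he' h
    rw [← hval e he, ← hval e' he', h]
  have hmain := res_mainY H I E (fun e i => sr (e i)) (fun e i => tg (e i))
    (fun x => ∏ i, piv (un q) (x i)) (labG q)
    (fun e he => Fintype.mem_piFinset.2 fun i => sr_mem (memE e he i))
    (fun e he => Fintype.mem_piFinset.2 fun i => tg_mem (memE e he i))
    (fun e he => by
      simp only [labG]
      rw [← Finset.prod_mul_distrib]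
      exact Finset.prod_congr rfl fun i _ => piv_tg (un q) (memE e he i))
    (fun e he e' he' h h' => by
      funext i
      exact sr_inj (memE e he i) (memE e' he' i)
        (labN_inj P m t hpr hdis e e' (memE e he) (memE e' he') (hlab e he e' he' h) i)
        (congrFun h' i))
    (fun e he e' he' h h' => by
      funext i
      exact tg_inj (memE e he i) (memE e' he' i)
        (labN_inj P m t hpr hdis e e' (memE e he) (memE e' he') (hlab e he e' he' h) i)
        (congrFun h' i))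
    V hV herr hT (fun e he => by
      rw [hval e he]
      have h1 := labN_le P m t y hy e (memE e he)
      have h2 : (256 : ℝ) * (labN e : ℝ) ≤ Y := (mul_le_mul_of_nonneg_left h1 (by norm_num)).trans hyY
      exact_mod_cast h2)
  have hlow : ∀ e ∈ E, ∏ i, ((y i) ^ (t i))⁻¹ ≤ ((labG q e : ZMod q).val : ℝ) ^ (-(1 / 2 : ℝ)) := by
    intro e he
    rw [hval e he]
    have h1 : (0 : ℝ) < labN e := by exact_mod_cast labN_pos P m t hpr e (memE e he)
    have h2 := labN_le P m t y hy e (memE e he)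
    have h3 : ∏ i, y i ^ (2 * t i) = (∏ i, y i ^ (t i)) ^ 2 := by
      rw [← Finset.prod_pow]
      apply Finset.prod_congr rfl
      intro i _
      rw [← pow_mul, mul_comm]
    have h4 : 0 < ∏ i, y i ^ (t i) := Finset.prod_pos fun i _ => pow_pos (hy0 i) _
    rw [h3] at h2
    rw [Finset.prod_inv_distrib, Real.rpow_neg h1.le, ← Real.sqrt_eq_rpow]
    apply inv_anti₀ (Real.sqrt_pos.2 h1)
    rw [Real.sqrt_le_left h4.le]
    exact h2
  have hsum : (#E : ℝ) * ∏ i, ((y i) ^ (t i))⁻¹ ≤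
      ∑ e ∈ E, ((labG q e : ZMod q).val : ℝ) ^ (-(1 / 2 : ℝ)) := by
    rw [← nsmul_eq_mul, ← Finset.sum_const]
    exact Finset.sum_le_sum hlow
  have hIcard : (#I : ℝ) = ∏ i, (((P i).card.choose (m i) : ℝ) * 2 ^ (m i)) := by
    rw [hI, Fintype.card_piFinset]
    push_cast
    apply Finset.prod_congr rfl
    intro i _
    rw [card_X]
    push_cast
    rfl
  have hIpos : (0 : ℝ) < #I := by
    rw [hIcard]
    apply Finset.prod_pos
    intro i _
    have : 0 < (P i).card.choose (m i) := Nat.choose_pos (hm i)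
    positivity
  have hEcard : (#E : ℝ) * ∏ i, ((y i) ^ (t i))⁻¹ = (#I : ℝ) *
      ∏ i, (((m i).choose (t i) : ℝ) * (((P i).card - m i).choose (t i) : ℝ) / (2 * y i) ^ (t i)) := by
    rw [hIcard, hE, Fintype.card_piFinset, Nat.cast_prod, ← Finset.prod_mul_distrib,
      ← Finset.prod_mul_distrib]
    apply Finset.prod_congr rfl
    intro i _
    rw [card_EE]
    have hyi := (hy0 i).ne'
    rcases le_or_gt (t i) (m i) with h | h
    · have e1 : (2 : ℝ) ^ (m i) = 2 ^ (m i - t i) * 2 ^ (t i) := by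
        rw [← pow_add]; congr 1; omega
      push_cast
      rw [e1, mul_pow]
      field_simp
    · rw [Nat.choose_eq_zero_of_lt h]
      simp
  rw [hEcard] at hsum
  have h5 := hsum.trans hmain
  rw [← hIcard]
  have h6 : (#I : ℝ) * ∏ i, (((m i).choose (t i) : ℝ) * (((P i).card - m i).choose (t i) : ℝ) /
      (2 * y i) ^ (t i)) ≤ (#I : ℝ) * (2 * (V + err * #I)) := by
    refine h5.trans (le_of_eq ?_)
    ring
  exact le_of_mul_le_mul_left h6 hIpos

end

end Pool.Agent.V8H35.HB
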